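import Pool.Agent.H528R2.CoreB
import Pool.Agent.H528R2.Atoms

/-!
# New inert primes with odd multiplicity at the multiples of an index
-/

set_option autoImplicit false

namespace Pool.Agent.Helper89K9.AD

open Pool.Agent.H528R2 Pool.Agent.H528R2.CoreB

/-- the parity changes from `x` to `x p` unless it is explained by `p` itself -/
theorem exists_new {x p : ℕ} (hx : x ≠ 0) (hp : p.Prime) (c : ZMod 2)
    (hc : c = 1 ↔ Inert p ∧ rk p ∣ x)
    (h : pr (x : ℤ) + pr ((x * p : ℕ) : ℤ) ≠ c) :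
    ∃ s : ℕ, Inert s ∧ rk s ∣ x * p ∧ ¬ rk s ∣ x ∧ Odd (dd s ((x * p : ℕ) : ℤ)) := by
  classical
  by_contra hcon
  push Not at hcon
  apply h
  have hxp : x * p ≠ 0 := mul_ne_zero hx hp.ne_zero
  unfold pr
  rw [← finsum_add_distrib (RhoAux.fin_dd _) (RhoAux.fin_dd _)]
  have key : ∀ s : {s : ℕ // Inert s}, ((dd s (x : ℤ) : ℕ) : ZMod 2) +
      ((dd s ((x * p : ℕ) : ℤ) : ℕ) : ZMod 2) = if (s : ℕ) = p ∧ rk p ∣ x then 1 else 0 := by
    intro s
    have hs := s.2
    have e1 : padicValNat s (x * p) = padicValNat s x + padicValNat s p := by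
      have := Fact.mk hs.1
      exact padicValNat.mul hx hp.ne_zero
    have e2 := val_self_or hs.1 hp
    by_cases h1 : rk s ∣ x
    · have h2 := dd_of hs.1 hx h1
      have h3 := dd_of hs.1 hxp (h1.trans (dvd_mul_right _ _))
      by_cases h4 : (s : ℕ) = p
      · rw [if_pos ⟨h4, h4 ▸ h1⟩]
        rw [if_pos h4] at e2
        have h5 : dd s ((x * p : ℕ) : ℤ) = dd s (x : ℤ) + 1 := by omega
        rw [h5]
        push_cast
        have : ∀ t : ZMod 2, t + (t + 1) = 1 := by decide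
        exact this _
      · rw [if_neg (fun h => h4 h.1)]
        rw [if_neg h4] at e2
        have h5 : dd s ((x * p : ℕ) : ℤ) = dd s (x : ℤ) := by omega
        rw [h5]
        have : ∀ t : ZMod 2, t + t = 0 := by decide
        exact this _
    · have h2 := dd_zero_of hs.1 hx h1
      have h4 : ¬ ((s : ℕ) = p ∧ rk p ∣ x) := fun h => h1 (h.1 ▸ h.2)
      rw [if_neg h4, h2]
      by_cases h3 : rk s ∣ x * p
      · have h5 := hcon s hs h3 h1
        rw [Nat.not_odd_iff_even] at h5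
        rw [(ZMod.natCast_eq_zero_iff_even).2 h5]
        simp
      · rw [dd_zero_of hs.1 hxp h3]
        simp
  rw [finsum_congr key]
  by_cases hi : Inert p ∧ rk p ∣ x
  · rw [hc.2 hi]
    rw [finsum_eq_single _ (⟨p, hi.1⟩ : {s : ℕ // Inert s})]
    · simp [hi.2]
    · intro s hs
      rw [if_neg]
      rintro ⟨h1, -⟩
      exact hs (Subtype.ext h1)
  · have h0 : c = 0 := by
      have : ∀ t : ZMod 2, t = 0 ∨ t = 1 := by decide
      rcases this c with h | h
      · exact h
      · exact absurd (hc.1 h) hi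
    rw [h0]
    rw [finsum_congr (g := fun _ => (0 : ZMod 2)), finsum_zero]
    intro s
    rw [if_neg]
    rintro ⟨h1, h2⟩
    exact hi ⟨h1 ▸ s.2, h2⟩

/-- the parity differences for `p = ±7 mod 16` -/
theorem tab_seven : ∀ α β : ZMod 2, ∀ m ∈ ([1, 3, 5, 7, 9, 11, 13, 15] : List (ZMod 16)),
    ∀ u ∈ ([7, 9] : List (ZMod 16)), tab α β m + tab α β (m * u) = 1 := by
  decide

/-- the parity differences for `p = ±3, ±5 mod 16` -/
theorem tab_three : ∀ α β : ZMod 2, ∀ m ∈ ([1, 3, 5, 7, 9, 11, 13, 15] : List (ZMod 16)),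
    ∀ u ∈ ([3, 5, 11, 13] : List (ZMod 16)), ∀ a ∈ ([3, 5] : List (ZMod 16)),
      tab α β (a * m) + tab α β (a * m * u) = tab α β m + tab α β (m * u) + 1 := by
  decide

theorem diff_seven {m p : ℕ} (hm : Odd m) (hp : p % 16 = 7 ∨ p % 16 = 9) :
    pr (m : ℤ) + pr ((m * p : ℕ) : ℤ) = 1 := by
  have op : Odd p := by rw [Nat.odd_iff]; omega
  have h1 : Odd ((m : ℤ)) := by exact_mod_cast hm
  have h2 : Odd (((m * p : ℕ) : ℤ)) := by exact_mod_cast hm.mul op
  have hu : (((p : ℤ)) : ZMod 16) ∈ ([7, 9] : List (ZMod 16)) := by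
    have e : (((p : ℤ)) : ZMod 16) = ((p % 16 : ℕ) : ZMod 16) := by
      rw [ZMod.natCast_mod]; push_cast; rfl
    rw [e]
    rcases hp with h | h <;> rw [h] <;> decide
  rw [pr_odd h1, pr_odd h2]
  have := tab_seven (pr 1) (pr 3) _ (cast_odd hm) _ hu
  push_cast at this ⊢
  exact this

theorem diff_three {m p a : ℕ} (hm : Odd m) (hp : p % 16 = 3 ∨ p % 16 = 5 ∨ p % 16 = 11 ∨
    p % 16 = 13) (ha : a = 3 ∨ a = 5) :
    pr ((a * m : ℕ) : ℤ) + pr ((a * m * p : ℕ) : ℤ) =
      pr (m : ℤ) + pr ((m * p : ℕ) : ℤ) + 1 := by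
  have op : Odd p := by rw [Nat.odd_iff]; omega
  have oa : Odd a := by rcases ha with rfl | rfl <;> decide
  have h1 : Odd ((m : ℤ)) := by exact_mod_cast hm
  have h2 : Odd (((m * p : ℕ) : ℤ)) := by exact_mod_cast hm.mul op
  have h3 : Odd (((a * m : ℕ) : ℤ)) := by exact_mod_cast oa.mul hm
  have h4 : Odd (((a * m * p : ℕ) : ℤ)) := by exact_mod_cast (oa.mul hm).mul op
  have hu : (((p : ℤ)) : ZMod 16) ∈ ([3, 5, 11, 13] : List (ZMod 16)) := by
    have e : (((p : ℤ)) : ZMod 16) = ((p % 16 : ℕ) : ZMod 16) := by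
      rw [ZMod.natCast_mod]; push_cast; rfl
    rw [e]
    rcases hp with h | h | h | h <;> rw [h] <;> decide
  have ha' : ((a : ℤ) : ZMod 16) ∈ ([3, 5] : List (ZMod 16)) := by
    rcases ha with rfl | rfl <;> decide
  rw [pr_odd h1, pr_odd h2, pr_odd h3, pr_odd h4]
  have := tab_three (pr 1) (pr 3) _ (cast_odd hm) _ hu _ ha'
  push_cast at this ⊢
  exact this

/-- **the core**: for an odd `m` and an odd prime `p` which is not `±1 mod 16` there is an inert
prime with odd multiplicity at one of the indices `m p`, `3 m p`, `5 m p` which is not visible at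
the index divided by `p` -/
theorem core_new {m p : ℕ} (hm : Odd m) (hp : p.Prime) (hp2 : p ≠ 2) (h1 : p % 16 ≠ 1)
    (h15 : p % 16 ≠ 15) :
    ∃ a ∈ ({1, 3, 5} : Finset ℕ), ∃ s : ℕ, Inert s ∧ rk s ∣ a * m * p ∧ ¬ rk s ∣ a * m ∧
      Odd (dd s ((a * m * p : ℕ) : ℤ)) := by
  have hm0 : m ≠ 0 := by rintro rfl; simp at hm
  have op : Odd p := hp.odd_of_ne_two hp2
  have hodd : p % 16 = 3 ∨ p % 16 = 5 ∨ p % 16 = 7 ∨ p % 16 = 9 ∨ p % 16 = 11 ∨ p % 16 = 13 := by
    rw [Nat.odd_iff] at op; omega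
  by_cases h7 : p % 16 = 7 ∨ p % 16 = 9
  · -- not inert
    have hni : ¬ Inert p := by
      rintro ⟨-, h⟩
      omega
    obtain ⟨s, hs, h2, h3, h4⟩ := exists_new hm0 hp 0 (by simp [hni]) (by
      rw [diff_seven hm h7]; exact one_ne_zero)
    exact ⟨1, by simp, s, hs, by simpa using h2, by simpa using h3, by simpa using h4⟩
  · have h3' : p % 16 = 3 ∨ p % 16 = 5 ∨ p % 16 = 11 ∨ p % 16 = 13 := by omega
    have hin : Inert p := ⟨hp, by omega⟩
    have z2 : ∀ t : ZMod 2, t = 0 ∨ t = 1 := by decide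
    have n01 : (0 : ZMod 2) ≠ 1 := by decide
    have n10 : (1 : ZMod 2) ≠ 0 := by decide
    have e11 : (1 : ZMod 2) + 1 = 0 := by decide
    have d3 := diff_three hm h3' (Or.inl rfl)
    have d5 := diff_three hm h3' (Or.inr rfl)
    by_cases hr : rk p ∣ m
    · -- the prime `p` is visible at all indices
      rcases z2 (pr (m : ℤ) + pr ((m * p : ℕ) : ℤ)) with h | h
      · obtain ⟨s, hs, h2, h3, h4⟩ := exists_new hm0 hp 1 (by simp [hin, hr]) (by
          rw [h]; exact n01)
        exact ⟨1, by simp, s, hs, by simpa using h2, by simpa using h3, by simpa using h4⟩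
      · rw [h, e11] at d3
        have hr3 : rk p ∣ 3 * m := hr.trans (dvd_mul_left _ _)
        obtain ⟨s, hs, h2, h3, h4⟩ := exists_new (x := 3 * m) (by omega) hp 1
          (by simp [hin, hr3]) (by rw [d3]; exact n01)
        exact ⟨3, by simp, s, hs, h2, h3, h4⟩
    · rcases z2 (pr (m : ℤ) + pr ((m * p : ℕ) : ℤ)) with h | h
      · rw [h, zero_add] at d3 d5
        by_cases hr3 : rk p ∣ 3 * m
        · have hr5 : ¬ rk p ∣ 5 * m := by
            intro h5
            apply hr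
            have h6 := Nat.dvd_gcd hr3 h5
            rw [Nat.gcd_mul_right] at h6
            simpa using h6
          obtain ⟨s, hs, h2, h3, h4⟩ := exists_new (x := 5 * m) (by omega) hp 0
            (by simp [hr5]) (by rw [d5]; exact n10)
          exact ⟨5, by simp, s, hs, h2, h3, h4⟩
        · obtain ⟨s, hs, h2, h3, h4⟩ := exists_new (x := 3 * m) (by omega) hp 0
            (by simp [hr3]) (by rw [d3]; exact n10)
          exact ⟨3, by simp, s, hs, h2, h3, h4⟩
      · obtain ⟨s, hs, h2, h3, h4⟩ := exists_new hm0 hp 0 (by simp [hr]) (by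
          rw [h]; exact n10)
        exact ⟨1, by simp, s, hs, by simpa using h2, by simpa using h3, by simpa using h4⟩

end Pool.Agent.Helper89K9.AD
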