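import Pool.Agent.Helper89K9.AD.Rel
import Pool.Agent.H528R2.Dio
import Pool.Agent.H528R3.PolyQ

/-!
# Approximate divisibility is Diophantine over `ℚ`
-/

set_option autoImplicit false

namespace Pool.Agent.Helper89K9.AD

open Pool.Agent.H528R2 Pool.Agent.H528R2.Chain Pool.Agent.H528R2.Dio

/-! ### multiples -/

/-- multiplication by `24` -/
def A3 (x y a b : ℚ) : Prop :=
  ∃ x2 y2 x3 y3 : ℚ, Dbl x y x2 y2 ∧ Chd x2 y2 x y x3 y3 ∧ Oct x3 y3 a b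

/-- multiplication by `40` -/
def A5 (x y a b : ℚ) : Prop :=
  ∃ x2 y2 x4 y4 x5 y5 : ℚ, Dbl x y x2 y2 ∧ Dbl x2 y2 x4 y4 ∧ Chd x4 y4 x y x5 y5 ∧ Oct x5 y5 a b

theorem a3_iff {n : ℤ} (hn : n ≠ 0) (a b : ℚ) :
    A3 (zz n) (yy n) a b ↔ a = zz (8 * (3 * n)) ∧ b = yy (8 * (3 * n)) := by
  have h2 : 2 * n ≠ 0 := by omega
  have h3 : 3 * n ≠ 0 := by omega
  have hne : zz (2 * n) ≠ zz n := by
    rw [Ne, zz_eq_iff h2 hn]; omega
  have e3 : 2 * n + n = 3 * n := by ring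
  unfold A3
  constructor
  · rintro ⟨x2, y2, x3, y3, h, h', h''⟩
    obtain ⟨rfl, rfl⟩ := (dbl_iff hn _ _).1 h
    obtain ⟨rfl, rfl⟩ := (chd_iff h2 hn hne _ _).1 h'
    rw [e3] at h''
    exact (oct_iff h3 _ _).1 h''
  · rintro ⟨rfl, rfl⟩
    exact ⟨zz (2 * n), yy (2 * n), zz (3 * n), yy (3 * n), (dbl_iff hn _ _).2 ⟨rfl, rfl⟩,
      (chd_iff h2 hn hne _ _).2 (by rw [e3]; exact ⟨rfl, rfl⟩), (oct_iff h3 _ _).2 ⟨rfl, rfl⟩⟩

theorem a5_iff {n : ℤ} (hn : n ≠ 0) (a b : ℚ) :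
    A5 (zz n) (yy n) a b ↔ a = zz (8 * (5 * n)) ∧ b = yy (8 * (5 * n)) := by
  have h2 : 2 * n ≠ 0 := by omega
  have h4 : 2 * (2 * n) ≠ 0 := by omega
  have h5 : 5 * n ≠ 0 := by omega
  have hne : zz (2 * (2 * n)) ≠ zz n := by
    rw [Ne, zz_eq_iff h4 hn]; omega
  have e5 : 2 * (2 * n) + n = 5 * n := by ring
  unfold A5
  constructor
  · rintro ⟨x2, y2, x4, y4, x5, y5, h, h', h'', h'''⟩
    obtain ⟨rfl, rfl⟩ := (dbl_iff hn _ _).1 h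
    obtain ⟨rfl, rfl⟩ := (dbl_iff h2 _ _).1 h'
    obtain ⟨rfl, rfl⟩ := (chd_iff h4 hn hne _ _).1 h''
    rw [e5] at h'''
    exact (oct_iff h5 _ _).1 h'''
  · rintro ⟨rfl, rfl⟩
    exact ⟨zz (2 * n), yy (2 * n), zz (2 * (2 * n)), yy (2 * (2 * n)), zz (5 * n), yy (5 * n),
      (dbl_iff hn _ _).2 ⟨rfl, rfl⟩, (dbl_iff h2 _ _).2 ⟨rfl, rfl⟩,
      (chd_iff h4 hn hne _ _).2 (by rw [e5]; exact ⟨rfl, rfl⟩), (oct_iff h5 _ _).2 ⟨rfl, rfl⟩⟩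

theorem dq_A3 {f g h k : (ℕ → ℚ) → ℚ} (hf : PF f) (hg : PF g) (hh : PF h) (hk : PF k) :
    DQ (fun v => A3 (f v) (g v) (h v) (k v)) := by
  unfold A3
  refine DQ.ex (DQ.ex (DQ.ex (DQ.ex ?_)))
  replace hf := hf.shift.shift.shift.shift
  replace hg := hg.shift.shift.shift.shift
  replace hh := hh.shift.shift.shift.shift
  replace hk := hk.shift.shift.shift.shift
  refine (dq_Dbl hf hg (PF.var _) (PF.var _)).and ?_
  refine (dq_Chd (PF.var _) (PF.var _) hf hg (PF.var _) (PF.var _)).and ?_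
  exact dq_Oct (PF.var _) (PF.var _) hh hk

theorem dq_A5 {f g h k : (ℕ → ℚ) → ℚ} (hf : PF f) (hg : PF g) (hh : PF h) (hk : PF k) :
    DQ (fun v => A5 (f v) (g v) (h v) (k v)) := by
  unfold A5
  refine DQ.ex (DQ.ex (DQ.ex (DQ.ex (DQ.ex (DQ.ex ?_)))))
  replace hf := hf.shift.shift.shift.shift.shift.shift
  replace hg := hg.shift.shift.shift.shift.shift.shift
  replace hh := hh.shift.shift.shift.shift.shift.shift
  replace hk := hk.shift.shift.shift.shift.shift.shift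
  refine (dq_Dbl hf hg (PF.var _) (PF.var _)).and ?_
  refine (dq_Dbl (PF.var _) (PF.var _) (PF.var _) (PF.var _)).and ?_
  refine (dq_Chd (PF.var _) (PF.var _) hf hg (PF.var _) (PF.var _)).and ?_
  exact dq_Oct (PF.var _) (PF.var _) hh hk

/-! ### the test -/

/-- the test, by equations -/
def TsE (c d e : ℚ) : Prop :=
  ∃ N w w' h k : ℚ, N * d = c ∧ w * c = 1 ∧ w' * e = 1 ∧ h = hst N w 1 ∧ k = nrm w' ∧
    Test N (h * k)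

theorem tsE_iff {c d e : ℚ} (hc : c ≠ 0) (hd : d ≠ 0) (he : e ≠ 0) : TsE c d e ↔ Ts c d e := by
  unfold TsE Ts
  constructor
  · rintro ⟨N, w, w', h, k, h1, h2, h3, rfl, rfl, h4⟩
    rw [← (eq_div_iff hd).2 h1, ← (eq_div_iff hc).2 h2, ← (eq_div_iff he).2 h3]
    exact h4
  · intro h
    exact ⟨c / d, 1 / c, 1 / e, _, _, div_mul_cancel₀ _ hd, one_div_mul_cancel hc,
      one_div_mul_cancel he, rfl, rfl, h⟩

theorem dq_TsE {f g h : (ℕ → ℚ) → ℚ} (hf : PF f) (hg : PF g) (hh : PF h) :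
    DQ (fun v => TsE (f v) (g v) (h v)) := by
  unfold TsE
  refine DQ.ex (DQ.ex (DQ.ex (DQ.ex (DQ.ex ?_))))
  replace hf := hf.shift.shift.shift.shift.shift
  replace hg := hg.shift.shift.shift.shift.shift
  replace hh := hh.shift.shift.shift.shift.shift
  refine (DQ.eq ((PF.var _).mul hg) hf).and ?_
  refine (DQ.eq ((PF.var _).mul hf) PF.one).and ?_
  refine (DQ.eq ((PF.var _).mul hh) PF.one).and ?_
  refine (dq_hst (PF.var _) (PF.var _) PF.one (PF.var _)).and ?_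
  refine (dq_nrm (PF.var _) (PF.var _)).and ?_
  exact dq_test (PF.var _) ((PF.var _).mul (PF.var _))

/-- the `2`-adic condition, by equations -/
def V2 (c e : ℚ) : Prop :=
  ∃ r x y z : ℚ, r * e = c ∧ 7 * r ^ 2 + 2 = x ^ 2 + y ^ 2 + z ^ 2

theorem v2_iff {c e : ℚ} (he : e ≠ 0) : V2 c e ↔ Vge 2 0 (c / e) := by
  rw [TH255.HC.z2_iff]
  unfold V2
  constructor
  · rintro ⟨r, x, y, z, h, h'⟩
    rw [← (eq_div_iff he).2 h]
    exact ⟨x, y, z, h'⟩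
  · rintro ⟨x, y, z, h⟩
    exact ⟨c / e, x, y, z, div_mul_cancel₀ _ he, h⟩

theorem dq_V2 {f g : (ℕ → ℚ) → ℚ} (hf : PF f) (hg : PF g) : DQ (fun v => V2 (f v) (g v)) := by
  unfold V2
  refine DQ.ex (DQ.ex (DQ.ex (DQ.ex ?_)))
  replace hf := hf.shift.shift.shift.shift
  replace hg := hg.shift.shift.shift.shift
  refine (DQ.eq ((PF.var _).mul hg) hf).and ?_
  exact DQ.eq (((PF.lit 7).mul ((PF.var _).pow 2)).add (PF.lit 2))
    ((((PF.var _).pow 2).add ((PF.var _).pow 2)).add ((PF.var _).pow 2))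

/-! ### the relation -/

/-- `(z, y)` and `(z', y')` are nonzero multiples `m P₀`, `n P₀` with `Dv m n` -/
def Rel (z y z' y' : ℚ) : Prop :=
  ∃ m n : ℤ, m ≠ 0 ∧ n ≠ 0 ∧ z = zz m ∧ y = yy m ∧ z' = zz n ∧ y' = yy n ∧ Dv m n

/-- the relation, by equations -/
def RelE (z y z' y' : ℚ) : Prop :=
  (On z y ∧ (IsSquare z ∨ IsSquare (5 * z))) ∧ (On z' y' ∧ (IsSquare z' ∨ IsSquare (5 * z'))) ∧
  (∃ c d e f : ℚ, Oct z y c d ∧ Oct z' y' e f ∧ TsE c d e ∧ V2 c e) ∧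
  (∃ c d e f : ℚ, A3 z y c d ∧ A3 z' y' e f ∧ TsE c d e) ∧
  (∃ c d e f : ℚ, A5 z y c d ∧ A5 z' y' e f ∧ TsE c d e)

theorem dv_iff (m n : ℤ) : Dv m n ↔
    (Ts (zz (8 * m)) (yy (8 * m)) (zz (8 * n)) ∧ Vge 2 0 (zz (8 * m) / zz (8 * n))) ∧
    Ts (zz (8 * (3 * m))) (yy (8 * (3 * m))) (zz (8 * (3 * n))) ∧
    Ts (zz (8 * (5 * m))) (yy (8 * (5 * m))) (zz (8 * (5 * n))) := by
  unfold Dv
  simp only [Finset.mem_insert, Finset.mem_singleton, forall_eq_or_imp, forall_eq]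
  push_cast
  rw [one_mul, one_mul]
  tauto

theorem relE_iff (z y z' y' : ℚ) : Rel z y z' y' ↔ RelE z y z' y' := by
  unfold Rel RelE
  constructor
  · rintro ⟨m, n, hm, hn, rfl, rfl, rfl, rfl, h⟩
    rw [dv_iff] at h
    have hc : ∀ k : ℤ, k ≠ 0 → zz (8 * k) ≠ 0 ∧ yy (8 * k) ≠ 0 := fun k hk =>
      ⟨zz_ne (eight_ne hk), yy_ne (eight_ne hk)⟩
    have m3 : 3 * m ≠ 0 := by omega
    have m5 : 5 * m ≠ 0 := by omega
    have n3 : 3 * n ≠ 0 := by omega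
    have n5 : 5 * n ≠ 0 := by omega
    refine ⟨(gam_iff _ _).1 ⟨m, hm, rfl, rfl⟩, (gam_iff _ _).1 ⟨n, hn, rfl, rfl⟩,
      ⟨_, _, _, _, (oct_iff hm _ _).2 ⟨rfl, rfl⟩, (oct_iff hn _ _).2 ⟨rfl, rfl⟩, ?_, ?_⟩,
      ⟨_, _, _, _, (a3_iff hm _ _).2 ⟨rfl, rfl⟩, (a3_iff hn _ _).2 ⟨rfl, rfl⟩, ?_⟩,
      ⟨_, _, _, _, (a5_iff hm _ _).2 ⟨rfl, rfl⟩, (a5_iff hn _ _).2 ⟨rfl, rfl⟩, ?_⟩⟩
    · exact (tsE_iff (hc m hm).1 (hc m hm).2 (hc n hn).1).2 h.1.1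
    · exact (v2_iff (hc n hn).1).2 h.1.2
    · exact (tsE_iff (hc _ m3).1 (hc _ m3).2 (hc _ n3).1).2 h.2.1
    · exact (tsE_iff (hc _ m5).1 (hc _ m5).2 (hc _ n5).1).2 h.2.2
  · rintro ⟨h1, h2, ⟨c, d, e, f, h3, h4, h5, h6⟩, ⟨c', d', e', f', h3', h4', h5'⟩,
      ⟨c'', d'', e'', f'', h3'', h4'', h5''⟩⟩
    obtain ⟨m, hm, rfl, rfl⟩ := (gam_iff _ _).2 h1
    obtain ⟨n, hn, rfl, rfl⟩ := (gam_iff _ _).2 h2
    have hc : ∀ k : ℤ, k ≠ 0 → zz (8 * k) ≠ 0 ∧ yy (8 * k) ≠ 0 := fun k hk =>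
      ⟨zz_ne (eight_ne hk), yy_ne (eight_ne hk)⟩
    have m3 : 3 * m ≠ 0 := by omega
    have m5 : 5 * m ≠ 0 := by omega
    have n3 : 3 * n ≠ 0 := by omega
    have n5 : 5 * n ≠ 0 := by omega
    obtain ⟨rfl, rfl⟩ := (oct_iff hm _ _).1 h3
    obtain ⟨rfl, rfl⟩ := (oct_iff hn _ _).1 h4
    obtain ⟨rfl, rfl⟩ := (a3_iff hm _ _).1 h3'
    obtain ⟨rfl, rfl⟩ := (a3_iff hn _ _).1 h4'
    obtain ⟨rfl, rfl⟩ := (a5_iff hm _ _).1 h3''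
    obtain ⟨rfl, rfl⟩ := (a5_iff hn _ _).1 h4''
    refine ⟨m, n, hm, hn, rfl, rfl, rfl, rfl, (dv_iff m n).2 ⟨⟨?_, ?_⟩, ?_, ?_⟩⟩
    · exact (tsE_iff (hc m hm).1 (hc m hm).2 (hc n hn).1).1 h5
    · exact (v2_iff (hc n hn).1).1 h6
    · exact (tsE_iff (hc _ m3).1 (hc _ m3).2 (hc _ n3).1).1 h5'
    · exact (tsE_iff (hc _ m5).1 (hc _ m5).2 (hc _ n5).1).1 h5''

theorem dq_gam {f g : (ℕ → ℚ) → ℚ} (hf : PF f) (hg : PF g) :
    DQ (fun v => On (f v) (g v) ∧ (IsSquare (f v) ∨ IsSquare (5 * f v))) :=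
  (dq_On hf hg).and ((DQ.isSquare hf).or (DQ.isSquare ((PF.lit 5).mul hf)))

theorem dq_rel {f g h k : (ℕ → ℚ) → ℚ} (hf : PF f) (hg : PF g) (hh : PF h) (hk : PF k) :
    DQ (fun v => Rel (f v) (g v) (h v) (k v)) := by
  refine DQ.congr ?_ (fun v => relE_iff (f v) (g v) (h v) (k v))
  unfold RelE
  refine (dq_gam hf hg).and ((dq_gam hh hk).and ?_)
  replace hf := hf.shift.shift.shift.shift
  replace hg := hg.shift.shift.shift.shift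
  replace hh := hh.shift.shift.shift.shift
  replace hk := hk.shift.shift.shift.shift
  refine (DQ.ex (DQ.ex (DQ.ex (DQ.ex ?_)))).and ((DQ.ex (DQ.ex (DQ.ex (DQ.ex ?_)))).and
    (DQ.ex (DQ.ex (DQ.ex (DQ.ex ?_)))))
  · exact (dq_Oct hf hg (PF.var _) (PF.var _)).and ((dq_Oct hh hk (PF.var _) (PF.var _)).and
      ((dq_TsE (PF.var _) (PF.var _) (PF.var _)).and (dq_V2 (PF.var _) (PF.var _))))
  · exact (dq_A3 hf hg (PF.var _) (PF.var _)).and ((dq_A3 hh hk (PF.var _) (PF.var _)).and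
      (dq_TsE (PF.var _) (PF.var _) (PF.var _)))
  · exact (dq_A5 hf hg (PF.var _) (PF.var _)).and ((dq_A5 hh hk (PF.var _) (PF.var _)).and
      (dq_TsE (PF.var _) (PF.var _) (PF.var _)))

theorem dio_rel : DioQ 4 (fun x => Rel (x 0) (x 1) (x 2) (x 3)) :=
  DQ.dioQ (dq_rel (PF.var _) (PF.var _) (PF.var _) (PF.var _))

end Pool.Agent.Helper89K9.AD
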