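import Pool.Agent.Helper89K9.AD.Log
import Pool.Agent.Helper89K9.AD.Dio

/-!
# The quotient of two indices modulo the visible primes is Diophantine
-/

set_option autoImplicit false

namespace Pool.Agent.Helper89K9.AD

open Pool.Agent.H528R2 Pool.Agent.H528R2.Chain Pool.Agent.H528R2.Dio

/-- the test for the quotient, by equations -/
def TsXE (c d e f x : ℚ) : Prop :=
  ∃ N w N' r h k : ℚ, N * d = c ∧ w * c = 1 ∧ N' * f = e ∧ r * N = N' ∧ h = hst N w 1 ∧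
    k = nrm (x - r) ∧ Test N (h * k)

theorem tsXE_iff {c d e f : ℚ} (hc : c ≠ 0) (hd : d ≠ 0) (hf : f ≠ 0) (x : ℚ) :
    TsXE c d e f x ↔ TsX c d e f x := by
  have hN : c / d ≠ 0 := div_ne_zero hc hd
  unfold TsXE TsX
  constructor
  · rintro ⟨N, w, N', r, h, k, h1, h2, h3, h4, rfl, rfl, h5⟩
    have e1 : N = c / d := (eq_div_iff hd).2 h1
    have e2 : w = 1 / c := (eq_div_iff hc).2 h2
    have e3 : N' = e / f := (eq_div_iff hf).2 h3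
    subst e1 e2 e3
    have e4 : r = e / f / (c / d) := (eq_div_iff hN).2 h4
    rw [← e4]
    exact h5
  · intro h
    exact ⟨c / d, 1 / c, e / f, e / f / (c / d), _, _, div_mul_cancel₀ _ hd,
      one_div_mul_cancel hc, div_mul_cancel₀ _ hf, div_mul_cancel₀ _ hN, rfl, rfl, h⟩

theorem dq_TsXE {f g h k l : (ℕ → ℚ) → ℚ} (hf : PF f) (hg : PF g) (hh : PF h) (hk : PF k)
    (hl : PF l) : DQ (fun v => TsXE (f v) (g v) (h v) (k v) (l v)) := by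
  unfold TsXE
  refine DQ.ex (DQ.ex (DQ.ex (DQ.ex (DQ.ex (DQ.ex ?_)))))
  replace hf := hf.shift.shift.shift.shift.shift.shift
  replace hg := hg.shift.shift.shift.shift.shift.shift
  replace hh := hh.shift.shift.shift.shift.shift.shift
  replace hk := hk.shift.shift.shift.shift.shift.shift
  replace hl := hl.shift.shift.shift.shift.shift.shift
  refine (DQ.eq ((PF.var _).mul hg) hf).and ?_
  refine (DQ.eq ((PF.var _).mul hf) PF.one).and ?_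
  refine (DQ.eq ((PF.var _).mul hk) hh).and ?_
  refine (DQ.eq ((PF.var _).mul (PF.var _)) (PF.var _)).and ?_
  refine (dq_hst (PF.var _) (PF.var _) PF.one (PF.var _)).and ?_
  refine (dq_nrm (hl.sub (PF.var _)) (PF.var _)).and ?_
  exact dq_test (PF.var _) ((PF.var _).mul (PF.var _))

/-- the tests for the quotient at the three indices -/
def Lg (m n : ℤ) (x : ℚ) : Prop :=
  ∀ a ∈ ({1, 3, 5} : Finset ℕ), TsX (zz (8 * (a * m))) (yy (8 * (a * m)))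
    (zz (8 * (a * n))) (yy (8 * (a * n))) x

/-- `(z, y)` and `(z', y')` are nonzero multiples `m P₀`, `n P₀` with `Dv m n`, and
`x = n / m` modulo the primes seen at `m` -/
def RelX (z y z' y' x : ℚ) : Prop :=
  ∃ m n : ℤ, m ≠ 0 ∧ n ≠ 0 ∧ z = zz m ∧ y = yy m ∧ z' = zz n ∧ y' = yy n ∧ Dv m n ∧ Lg m n x

theorem lg_iff {m : ℤ} (hm : m ≠ 0) (k : ℤ) (x : ℚ) :
    Lg m (k * m) x ↔ ∀ q ∈ Qs m, Vge q 1 (x - k) := by
  unfold Lg
  constructor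
  · rintro h q ⟨hq, a, ha, hv, hodd⟩
    have ha0 : (a : ℤ) ≠ 0 := by exact_mod_cast pos_of_mem ha
    have h1 := h a ha
    have e : (a : ℤ) * (k * m) = k * (a * m) := by ring
    rw [e, tsX_iff (mul_ne_zero ha0 hm)] at h1
    exact h1 q hq hv hodd
  · intro h a ha
    have ha0 : (a : ℤ) ≠ 0 := by exact_mod_cast pos_of_mem ha
    have e : (a : ℤ) * (k * m) = k * (a * m) := by ring
    rw [e, tsX_iff (mul_ne_zero ha0 hm)]
    intro q hq hv hodd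
    exact h q ⟨hq, a, ha, hv, hodd⟩

theorem lg3_iff (m n : ℤ) (x : ℚ) : Lg m n x ↔
    TsX (zz (8 * m)) (yy (8 * m)) (zz (8 * n)) (yy (8 * n)) x ∧
    TsX (zz (8 * (3 * m))) (yy (8 * (3 * m))) (zz (8 * (3 * n))) (yy (8 * (3 * n))) x ∧
    TsX (zz (8 * (5 * m))) (yy (8 * (5 * m))) (zz (8 * (5 * n))) (yy (8 * (5 * n))) x := by
  unfold Lg
  simp only [Finset.mem_insert, Finset.mem_singleton, forall_eq_or_imp, forall_eq]
  push_cast
  rw [one_mul, one_mul]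

/-- the relation, by equations -/
def RelXE (z y z' y' x : ℚ) : Prop :=
  Rel z y z' y' ∧
  (∃ c d e f : ℚ, Oct z y c d ∧ Oct z' y' e f ∧ TsXE c d e f x) ∧
  (∃ c d e f : ℚ, A3 z y c d ∧ A3 z' y' e f ∧ TsXE c d e f x) ∧
  (∃ c d e f : ℚ, A5 z y c d ∧ A5 z' y' e f ∧ TsXE c d e f x)

theorem relXE_iff (z y z' y' x : ℚ) : RelX z y z' y' x ↔ RelXE z y z' y' x := by
  have hc : ∀ k : ℤ, k ≠ 0 → zz (8 * k) ≠ 0 ∧ yy (8 * k) ≠ 0 := fun k hk =>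
    ⟨zz_ne (eight_ne hk), yy_ne (eight_ne hk)⟩
  unfold RelX RelXE Rel
  constructor
  · rintro ⟨m, n, hm, hn, rfl, rfl, rfl, rfl, h, h'⟩
    rw [lg3_iff] at h'
    have m3 : 3 * m ≠ 0 := by omega
    have m5 : 5 * m ≠ 0 := by omega
    have n3 : 3 * n ≠ 0 := by omega
    have n5 : 5 * n ≠ 0 := by omega
    refine ⟨⟨m, n, hm, hn, rfl, rfl, rfl, rfl, h⟩,
      ⟨_, _, _, _, (oct_iff hm _ _).2 ⟨rfl, rfl⟩, (oct_iff hn _ _).2 ⟨rfl, rfl⟩, ?_⟩,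
      ⟨_, _, _, _, (a3_iff hm _ _).2 ⟨rfl, rfl⟩, (a3_iff hn _ _).2 ⟨rfl, rfl⟩, ?_⟩,
      ⟨_, _, _, _, (a5_iff hm _ _).2 ⟨rfl, rfl⟩, (a5_iff hn _ _).2 ⟨rfl, rfl⟩, ?_⟩⟩
    · exact (tsXE_iff (hc m hm).1 (hc m hm).2 (hc n hn).2 x).2 h'.1
    · exact (tsXE_iff (hc _ m3).1 (hc _ m3).2 (hc _ n3).2 x).2 h'.2.1
    · exact (tsXE_iff (hc _ m5).1 (hc _ m5).2 (hc _ n5).2 x).2 h'.2.2
  · rintro ⟨⟨m, n, hm, hn, rfl, rfl, rfl, rfl, h⟩, ⟨c, d, e, f, h3, h4, h5⟩,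
      ⟨c', d', e', f', h3', h4', h5'⟩, ⟨c'', d'', e'', f'', h3'', h4'', h5''⟩⟩
    have m3 : 3 * m ≠ 0 := by omega
    have m5 : 5 * m ≠ 0 := by omega
    have n3 : 3 * n ≠ 0 := by omega
    have n5 : 5 * n ≠ 0 := by omega
    obtain ⟨rfl, rfl⟩ := (oct_iff hm _ _).1 h3
    obtain ⟨rfl, rfl⟩ := (oct_iff hn _ _).1 h4
    obtain ⟨rfl, rfl⟩ := (a3_iff hm _ _).1 h3'
    obtain ⟨rfl, rfl⟩ := (a3_iff hn _ _).1 h4'
    obtain ⟨rfl, rfl⟩ := (a5_iff hm _ _).1 h3''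
    obtain ⟨rfl, rfl⟩ := (a5_iff hn _ _).1 h4''
    refine ⟨m, n, hm, hn, rfl, rfl, rfl, rfl, h, (lg3_iff m n x).2 ⟨?_, ?_, ?_⟩⟩
    · exact (tsXE_iff (hc m hm).1 (hc m hm).2 (hc n hn).2 x).1 h5
    · exact (tsXE_iff (hc _ m3).1 (hc _ m3).2 (hc _ n3).2 x).1 h5'
    · exact (tsXE_iff (hc _ m5).1 (hc _ m5).2 (hc _ n5).2 x).1 h5''

theorem dq_relX {f g h k l : (ℕ → ℚ) → ℚ} (hf : PF f) (hg : PF g) (hh : PF h) (hk : PF k)
    (hl : PF l) : DQ (fun v => RelX (f v) (g v) (h v) (k v) (l v)) := by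
  refine DQ.congr ?_ (fun v => relXE_iff (f v) (g v) (h v) (k v) (l v))
  unfold RelXE
  refine (dq_rel hf hg hh hk).and ?_
  replace hf := hf.shift.shift.shift.shift
  replace hg := hg.shift.shift.shift.shift
  replace hh := hh.shift.shift.shift.shift
  replace hk := hk.shift.shift.shift.shift
  replace hl := hl.shift.shift.shift.shift
  refine (DQ.ex (DQ.ex (DQ.ex (DQ.ex ?_)))).and ((DQ.ex (DQ.ex (DQ.ex (DQ.ex ?_)))).and
    (DQ.ex (DQ.ex (DQ.ex (DQ.ex ?_)))))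
  · exact (dq_Oct hf hg (PF.var _) (PF.var _)).and ((dq_Oct hh hk (PF.var _) (PF.var _)).and
      (dq_TsXE (PF.var _) (PF.var _) (PF.var _) (PF.var _) hl))
  · exact (dq_A3 hf hg (PF.var _) (PF.var _)).and ((dq_A3 hh hk (PF.var _) (PF.var _)).and
      (dq_TsXE (PF.var _) (PF.var _) (PF.var _) (PF.var _) hl))
  · exact (dq_A5 hf hg (PF.var _) (PF.var _)).and ((dq_A5 hh hk (PF.var _) (PF.var _)).and
      (dq_TsXE (PF.var _) (PF.var _) (PF.var _) (PF.var _) hl))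

theorem dio_relX : DioQ 5 (fun x => RelX (x 0) (x 1) (x 2) (x 3) (x 4)) :=
  DQ.dioQ (dq_relX (PF.var _) (PF.var _) (PF.var _) (PF.var _) (PF.var _))

end Pool.Agent.Helper89K9.AD
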