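import Pool.Agent.Helper89K9.AD.Log
import Pool.Agent.H528R2.Recip
import Pool.Agent.Helper89K9.AD.Dio

/-!
# The negation of a test is Diophantine
-/

set_option autoImplicit false

namespace Pool.Agent.Helper89K9.AD

open Pool.Agent.H528R2 Pool.Agent.H528R2.Chain Pool.Agent.H528R2.Dio

/-- `b` is a `2`-adic unit congruent to `3` or `5` modulo `8` -/
def U8 (b : ℚ) : Prop := ∃ c : ℚ, Vge 2 0 c ∧ (b = 3 + 8 * c ∨ b = 5 + 8 * c)

theorem den_odd {c : ℚ} (h : Vge 2 0 c) : Odd (c.den : ℤ) := by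
  have := Fact.mk Nat.prime_two
  rw [← Int.not_even_iff_odd]
  intro he
  have hdvd : 2 ∣ c.den := by
    have := he.two_dvd
    exact_mod_cast this
  rcases h with h | h
  · rw [h] at hdvd; simp at hdvd
  · rw [padicValRat_def, padicValInt] at h
    have h3 : padicValNat 2 c.num.natAbs = 0 := by
      apply padicValNat.eq_zero_of_not_dvd
      intro h4
      exact (Nat.Prime.not_coprime_iff_dvd.mpr ⟨2, Nat.prime_two, h4, hdvd⟩) c.reduced
    have h4 : 1 ≤ padicValNat 2 c.den := one_le_padicValNat_of_dvd c.den_nz hdvd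
    omega

theorem U8.spec {b : ℚ} (h : U8 b) : ∃ q, Inert q ∧ Odd (padicValRat q b) := by
  obtain ⟨c, hc, hb⟩ := h
  by_contra hcon
  push Not at hcon
  have hd := den_odd hc
  have hsq := RhoAux.sq8 hd
  have hc' : c = (c.num : ℚ) / (c.den : ℤ) := by
    push_cast
    exact (Rat.num_div_den c).symm
  have hd0 : ((c.den : ℤ) : ℚ) ≠ 0 := by
    push_cast
    exact_mod_cast c.den_nz
  have key : ∃ j : ℤ, (j = 3 ∨ j = 5) ∧ b = j + 8 * c := by
    rcases hb with hb | hb
    · exact ⟨3, Or.inl rfl, by push_cast; exact hb⟩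
    · exact ⟨5, Or.inr rfl, by push_cast; exact hb⟩
  obtain ⟨j, hj, hbj⟩ := key
  have hA : Odd (j * c.den + 8 * c.num) := by
    have hjo : Odd j := by rcases hj with rfl | rfl <;> decide
    have h1 := hjo.mul hd
    obtain ⟨k, hk⟩ := h1
    exact ⟨k + 4 * c.num, by rw [hk]; ring⟩
  have hr := recip (x := b) (e := 0) hA hd (by
    rw [hbj, zpow_zero, one_mul, eq_div_iff hd0]
    nth_rewrite 1 [hc']
    push_cast
    have : ((c.den : ℕ) : ℚ) ≠ 0 := by exact_mod_cast c.den_nz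
    field_simp)
  have h0 : (∑ᶠ s : {s : ℕ // Inert s}, ((padicValRat s b : ℤ) : ZMod 2)) = 0 := by
    rw [finsum_congr (g := fun _ => (0 : ZMod 2)), finsum_zero]
    intro s
    have h1 := hcon s.1 s.2
    rw [Int.not_odd_iff_even] at h1
    exact (ZMod.intCast_eq_zero_iff_even).2 h1
  rw [h0] at hr
  have h1 : ((j * c.den + 8 * c.num) * (c.den : ℤ)) % 8 = j := by
    obtain ⟨t, ht⟩ : ∃ t, (c.den : ℤ) ^ 2 = 8 * t + 1 := ⟨(c.den : ℤ) ^ 2 / 8, by omega⟩
    have e : (j * c.den + 8 * c.num) * (c.den : ℤ) = j * (c.den : ℤ) ^ 2 + 8 * (c.num * c.den) := by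
      ring
    rw [e, ht]
    have e2 : j * (8 * t + 1) + 8 * (c.num * c.den) = 8 * (j * t + c.num * c.den) + j := by ring
    rw [e2]
    rcases hj with rfl | rfl <;> omega
  rw [h1, if_neg (by rcases hj with rfl | rfl <;> omega)] at hr
  exact zero_ne_one hr

theorem two_ne_sq {q : ℕ} (hq : Inert q) (t : ZMod q) : t ^ 2 - 2 ≠ 0 := by
  have := Fact.mk hq.1
  intro h
  have hs : IsSquare (2 : ZMod q) := ⟨t, by linear_combination -h⟩
  rw [ZMod.exists_sq_eq_two_iff (inert_ne_two hq)] at hs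
  have := hq.2
  omega

theorem sum_all {q : ℕ} [Fq : Fact q.Prime] (hq : Inert q) (s : ZMod q) :
    ∃ t u : ZMod q, t ^ 2 / (t ^ 2 - 2) + u ^ 2 / (u ^ 2 - 2) = s := by
  classical
  set ψ : ZMod q → ZMod q := fun t => t ^ 2 / (t ^ 2 - 2) with hψ
  set A : Finset (ZMod q) := Finset.univ.image ψ with hA
  have hfib : ∀ t t' : ZMod q, ψ t = ψ t' → t' = t ∨ t' = -t := by
    intro t t' h
    have h1 := two_ne_sq hq t
    have h2 := two_ne_sq hq t'
    simp only [hψ] at h
    rw [div_eq_div_iff h1 h2] at h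
    have h3 : (2 : ZMod q) * (t' ^ 2 - t ^ 2) = 0 := by linear_combination h
    have h4 : (2 : ZMod q) ≠ 0 := by
      intro h5
      apply two_ne_sq hq 0
      rw [h5]; ring
    have h5 := (mul_eq_zero.1 h3).resolve_left h4
    have h6 : (t' - t) * (t' + t) = 0 := by linear_combination h5
    rcases mul_eq_zero.1 h6 with h7 | h7
    · left; exact sub_eq_zero.1 h7
    · right; exact eq_neg_of_add_eq_zero_left h7
  have hcard : Fintype.card (ZMod q) ≤ 2 * A.card := by
    rw [← Finset.card_univ]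
    apply Finset.card_le_mul_card_image
    intro b hb
    obtain ⟨t, -, rfl⟩ := Finset.mem_image.1 hb
    refine (Finset.card_le_card (t := {t, -t}) ?_).trans Finset.card_le_two
    intro t' ht'
    rw [Finset.mem_filter] at ht'
    have := hfib t t' ht'.2.symm
    simpa using this
  rw [ZMod.card] at hcard
  have hodd : q % 2 = 1 := by
    rcases hq.2 with h | h <;> omega
  have hlt : q < A.card + A.card := by omega
  set B : Finset (ZMod q) := A.image (fun x => s - x) with hB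
  have hBc : B.card = A.card := by
    apply Finset.card_image_of_injective
    intro x y h
    simpa using h
  have hne : (A ∩ B).Nonempty := by
    by_contra hc
    rw [Finset.not_nonempty_iff_eq_empty] at hc
    have h1 := Finset.card_union_add_card_inter A B
    rw [hc, Finset.card_empty, add_zero, hBc] at h1
    have h2 := Finset.card_le_univ (A ∪ B)
    rw [ZMod.card] at h2
    omega
  obtain ⟨x, hx⟩ := hne
  rw [Finset.mem_inter] at hx
  obtain ⟨t, -, ht⟩ := Finset.mem_image.1 hx.1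
  obtain ⟨y, hy, hxy⟩ := Finset.mem_image.1 hx.2
  obtain ⟨u, -, hu⟩ := Finset.mem_image.1 hy
  refine ⟨t, u, ?_⟩
  simp only [hψ] at ht hu
  rw [ht, hu, ← hxy]
  ring

theorem unit_sum {q : ℕ} (hq : Inert q) {y : ℚ} (hy : y ≠ 0) (hv : padicValRat q y = 0) :
    ∃ t u : ℚ, Vge q 1 ((nrm t + nrm u) * y - 1) := by
  have Fq := Fact.mk hq.1
  have hnd : ¬ (q ∣ y.num.natAbs ∧ q ∣ y.den) := by
    rintro ⟨h1, h2⟩
    exact (Nat.Prime.not_coprime_iff_dvd.mpr ⟨q, hq.1, h1, h2⟩) y.reduced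
  have hnum0 : y.num.natAbs ≠ 0 := Int.natAbs_ne_zero.2 (Rat.num_ne_zero.2 hy)
  have h1 : ¬ q ∣ y.num.natAbs := by
    intro h
    have h2 : ¬ q ∣ y.den := fun h' => hnd ⟨h, h'⟩
    rw [padicValRat_def, padicValInt, padicValNat.eq_zero_of_not_dvd h2] at hv
    have := one_le_padicValNat_of_dvd hnum0 h
    omega
  have h2 : ¬ q ∣ y.den := by
    intro h
    rw [padicValRat_def, padicValInt, padicValNat.eq_zero_of_not_dvd h1] at hv
    have := one_le_padicValNat_of_dvd y.den_nz h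
    omega
  have h1' : ((y.num : ℤ) : ZMod q) ≠ 0 := by
    intro h
    rw [ZMod.intCast_zmod_eq_zero_iff_dvd] at h
    exact h1 (Int.natCast_dvd.1 h)
  have h2' : ((y.den : ℕ) : ZMod q) ≠ 0 := by
    intro h
    rw [ZMod.natCast_eq_zero_iff] at h
    exact h2 h
  obtain ⟨t, u, htu⟩ := sum_all hq (((y.den : ℕ) : ZMod q) / ((y.num : ℤ) : ZMod q))
  have ht := two_ne_sq hq t
  have hu := two_ne_sq hq u
  refine ⟨(t.val : ℚ), (u.val : ℚ), ?_⟩
  have et : ((t.val : ℕ) : ZMod q) = t := ZMod.natCast_zmod_val t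
  have eu : ((u.val : ℕ) : ZMod q) = u := ZMod.natCast_zmod_val u
  set T : ℤ := (t.val : ℤ) with hT
  set U : ℤ := (u.val : ℤ) with hU
  set Z : ℤ := (T ^ 2 * (U ^ 2 - 2) + U ^ 2 * (T ^ 2 - 2)) * y.num -
    (T ^ 2 - 2) * (U ^ 2 - 2) * y.den with hZ
  set W : ℤ := (T ^ 2 - 2) * (U ^ 2 - 2) * y.den with hW
  have cT : ((T : ℤ) : ZMod q) = t := by rw [hT]; push_cast; exact et
  have cU : ((U : ℤ) : ZMod q) = u := by rw [hU]; push_cast; exact eu
  have hZq : (q : ℤ) ∣ Z := by
    rw [← ZMod.intCast_zmod_eq_zero_iff_dvd, hZ, hW]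
    push_cast
    rw [cT, cU]
    rw [div_add_div _ _ ht hu, div_eq_div_iff (mul_ne_zero ht hu) h1'] at htu
    linear_combination htu
  have hWq : ¬ (q : ℤ) ∣ W := by
    rw [← ZMod.intCast_zmod_eq_zero_iff_dvd, hW]
    push_cast
    rw [cT, cU]
    exact mul_ne_zero (mul_ne_zero ht hu) h2'
  have hW0 : W ≠ 0 := by
    intro h
    apply hWq
    rw [h]
    exact dvd_zero _
  have e : (nrm (t.val : ℚ) + nrm (u.val : ℚ)) * y - 1 = (Z : ℚ) / W := by
    have hT2 := sq_sub_two_ne (t.val : ℚ)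
    have hU2 := sq_sub_two_ne (u.val : ℚ)
    have hyd : (y.den : ℚ) ≠ 0 := by exact_mod_cast y.den_nz
    have hyn : y = (y.num : ℚ) / y.den := (Rat.num_div_den y).symm
    unfold nrm
    rw [hZ, hW, hT, hU]
    push_cast
    nth_rewrite 1 [hyn]
    field_simp
  rw [e]
  by_cases hZ0 : Z = 0
  · left
    rw [hZ0]; simp
  · right
    rw [val_div hq.1 (by exact_mod_cast hZ0) (by exact_mod_cast hW0), padicValRat.of_int,
      padicValRat.of_int]
    have h3 : padicValInt q W = 0 := padicValInt.eq_zero_of_not_dvd hWq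
    have h4 : 1 ≤ padicValInt q Z := by
      unfold padicValInt
      exact one_le_padicValNat_of_dvd (Int.natAbs_ne_zero.2 hZ0) (Int.natCast_dvd.1 hZq)
    omega

/-- the negation of a test -/
def NTest (N F : ℚ) : Prop :=
  ∃ b M e t u : ℚ, U8 b ∧ M * b = N ∧ Test b e ∧ Test M (1 - e) ∧
    Test b ((nrm t + nrm u) * nrm F - 1)

theorem not_vge_one {q : ℕ} : ¬ Vge q 1 (1 : ℚ) := by
  rintro (h | h)
  · exact one_ne_zero h
  · rw [padicValRat.one] at h; omega

theorem vge_one_neg_one {q : ℕ} : ¬ Vge q 1 (-1 : ℚ) := by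
  intro h
  have := h.neg
  rw [neg_neg] at this
  exact not_vge_one this

theorem val_nat_prime {q s : ℕ} (hs : s.Prime) (hq : q.Prime) :
    padicValRat s (q : ℚ) = if s = q then 1 else 0 := by
  rw [padicValRat.of_nat, CoreB.val_self_or hs hq]
  split_ifs <;> rfl

theorem nTest_iff {N F : ℚ} (hN : N ≠ 0) : NTest N F ↔ ¬ Test N F := by
  constructor
  · rintro ⟨b, M, e, t, u, hb, hM, h1, h2, h3⟩ hT
    obtain ⟨q, hq, hodd⟩ := hb.spec
    have hb0 : b ≠ 0 := by
      rintro rfl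
      rw [mul_zero] at hM
      exact hN hM.symm
    have hM0 : M ≠ 0 := by
      rintro rfl
      rw [zero_mul] at hM
      exact hN hM.symm
    rw [test_iff hb0] at h1 h3
    rw [test_iff hM0] at h2
    rw [test_iff hN] at hT
    have e1 := h1 q hq hodd
    have hMe : ¬ Odd (padicValRat q M) := by
      intro ho
      have e2 := h2 q hq ho
      have := Vge.add hq.1 e1 e2
      have e3 : e + (1 - e) = 1 := by ring
      rw [e3] at this
      exact not_vge_one this
    rw [Int.not_odd_iff_even] at hMe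
    have hNo : Odd (padicValRat q N) := by
      rw [← hM, val_mul hq.1 hM0 hb0]
      exact hMe.add_odd hodd
    have e4 := (vge_one_nrm hq).2 (hT q hq hNo)
    have e5 := Vge.mul hq.1 (Vge.add hq.1 (vge_nrm hq t) (vge_nrm hq u)) e4
    rw [zero_add] at e5
    have e6 := Vge.sub hq.1 (h3 q hq hodd) e5
    have e7 : (nrm t + nrm u) * nrm F - 1 - (nrm t + nrm u) * nrm F = -1 := by ring
    rw [e7] at e6
    exact vge_one_neg_one e6
  · intro hT
    rw [test_iff hN] at hT
    push Not at hT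
    obtain ⟨q, hq, hodd, hF⟩ := hT
    have Fq := Fact.mk hq.1
    have hq0 : (q : ℚ) ≠ 0 := by exact_mod_cast hq.1.ne_zero
    have hM0 : N / q ≠ 0 := div_ne_zero hN hq0
    have hF0 : F ≠ 0 := fun h => hF (Or.inl h)
    have hvF : padicValRat q (nrm F) = 0 := by
      rw [val_nrm hq hF0]
      have : padicValRat q F ≤ 0 := by
        by_contra hc
        exact hF (Or.inr (by omega))
      omega
    obtain ⟨t, u, htu⟩ := unit_sum hq (fun h => hF0 (nrm_eq_zero.1 h)) hvF
    -- the part of `N / q` prime to `q`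
    have hA0 : (N / q).num.natAbs * (N / q).den ≠ 0 :=
      mul_ne_zero (Int.natAbs_ne_zero.2 (Rat.num_ne_zero.2 hM0)) (N / q).den_nz
    obtain ⟨i, A', hA', hAe⟩ := Nat.exists_eq_pow_mul_and_not_dvd hA0 q hq.1.ne_one
    have hcop : IsCoprime (q : ℤ) (A' : ℤ) :=
      Nat.isCoprime_iff_coprime.2 ((Nat.Prime.coprime_iff_not_dvd hq.1).2 hA')
    obtain ⟨x, y, hxy⟩ := hcop
    refine ⟨q, N / q, ((q * x : ℤ) : ℚ), t, u, ?_, div_mul_cancel₀ _ hq0, ?_, ?_, ?_⟩
    · rcases hq.2 with h | h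
      · refine ⟨((q / 8 : ℕ) : ℚ), vge_nat 2 _, Or.inl ?_⟩
        have : q = 3 + 8 * (q / 8) := by omega
        exact_mod_cast this
      · refine ⟨((q / 8 : ℕ) : ℚ), vge_nat 2 _, Or.inr ?_⟩
        have : q = 5 + 8 * (q / 8) := by omega
        exact_mod_cast this
    · rw [test_iff hq0]
      intro s hs ho
      rw [val_nat_prime hs.1 hq.1] at ho
      have hsq : s = q := by
        by_contra hne
        rw [if_neg hne] at ho
        simp at ho
      subst hsq
      push_cast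
      have h1 : Vge s 1 ((s : ℚ)) := by
        right
        rw [val_nat_prime hs.1 hs.1, if_pos rfl]
      have := Vge.mul hs.1 h1 (vge_int s x)
      simpa using this
    · rw [test_iff hM0]
      intro s hs ho
      have Fs := Fact.mk hs.1
      have hsq : s ≠ q := by
        rintro rfl
        rw [val_div hs.1 hN hq0, val_nat_prime hs.1 hs.1, if_pos rfl] at ho
        obtain ⟨k, hk⟩ := ho
        obtain ⟨l, hl⟩ := hodd
        omega
      have hsA : s ∣ A' := by
        have h1 : s ∣ (N / q).num.natAbs * (N / q).den := by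
          by_contra hnd
          rw [hs.1.dvd_mul, not_or] at hnd
          rw [padicValRat_def, padicValInt, padicValNat.eq_zero_of_not_dvd hnd.1,
            padicValNat.eq_zero_of_not_dvd hnd.2] at ho
          simp at ho
        rw [hAe] at h1
        rcases hs.1.dvd_mul.1 h1 with h2 | h2
        · exact absurd ((Nat.prime_dvd_prime_iff_eq hs.1 hq.1).1 (hs.1.dvd_of_dvd_pow h2)) hsq
        · exact h2
      obtain ⟨A'', hA''⟩ := hsA
      have e1 : (1 : ℚ) - ((q * x : ℤ) : ℚ) = (s : ℚ) * ((A'' * y : ℤ) : ℚ) := by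
        have e2 : (1 : ℤ) - q * x = s * (A'' * y) := by
          rw [← hxy, hA'']; push_cast; ring
        exact_mod_cast congrArg (fun z : ℤ => (z : ℚ)) e2
      rw [e1]
      have h1 : Vge s 1 ((s : ℚ)) := by
        right
        rw [val_nat_prime hs.1 hs.1, if_pos rfl]
      have := Vge.mul hs.1 h1 (vge_int s (A'' * y))
      simpa using this
    · rw [test_iff hq0]
      intro s hs ho
      rw [val_nat_prime hs.1 hq.1] at ho
      have hsq : s = q := by
        by_contra hne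
        rw [if_neg hne] at ho
        simp at ho
      subst hsq
      exact htu

/-! ### Diophantine definitions -/

def U8E (b : ℚ) : Prop :=
  ∃ c x y z : ℚ, 7 * c ^ 2 + 2 = x ^ 2 + y ^ 2 + z ^ 2 ∧ (b = 3 + 8 * c ∨ b = 5 + 8 * c)

theorem u8_iff (b : ℚ) : U8 b ↔ U8E b := by
  unfold U8 U8E
  simp only [TH255.HC.z2_iff]
  constructor
  · rintro ⟨c, ⟨x, y, z, h⟩, h'⟩
    exact ⟨c, x, y, z, h, h'⟩
  · rintro ⟨c, x, y, z, h, h'⟩
    exact ⟨c, ⟨x, y, z, h⟩, h'⟩

theorem dq_U8 {f : (ℕ → ℚ) → ℚ} (hf : PF f) : DQ (fun v => U8 (f v)) := by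
  refine DQ.congr ?_ (fun v => u8_iff (f v))
  unfold U8E
  refine DQ.ex (DQ.ex (DQ.ex (DQ.ex ?_)))
  replace hf := hf.shift.shift.shift.shift
  refine (DQ.eq (((PF.lit 7).mul ((PF.var _).pow 2)).add (PF.lit 2))
    ((((PF.var _).pow 2).add ((PF.var _).pow 2)).add ((PF.var _).pow 2))).and ?_
  exact (DQ.eq hf ((PF.lit 3).add ((PF.lit 8).mul (PF.var _)))).or
    (DQ.eq hf ((PF.lit 5).add ((PF.lit 8).mul (PF.var _))))

theorem nTest_ex (N F : ℚ) : NTest N F ↔ ∃ b M e t u k l m : ℚ, U8 b ∧ M * b = N ∧ Test b e ∧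
    Test M (1 - e) ∧ k = nrm t ∧ l = nrm u ∧ m = nrm F ∧ Test b ((k + l) * m - 1) := by
  unfold NTest
  constructor
  · rintro ⟨b, M, e, t, u, h1, h2, h3, h4, h5⟩
    exact ⟨b, M, e, t, u, _, _, _, h1, h2, h3, h4, rfl, rfl, rfl, h5⟩
  · rintro ⟨b, M, e, t, u, k, l, m, h1, h2, h3, h4, rfl, rfl, rfl, h5⟩
    exact ⟨b, M, e, t, u, h1, h2, h3, h4, h5⟩

theorem dq_NTest {f g : (ℕ → ℚ) → ℚ} (hf : PF f) (hg : PF g) :
    DQ (fun v => NTest (f v) (g v)) := by
  refine DQ.congr ?_ (fun v => nTest_ex (f v) (g v))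
  refine DQ.ex (DQ.ex (DQ.ex (DQ.ex (DQ.ex (DQ.ex (DQ.ex (DQ.ex ?_)))))))
  replace hf := hf.shift.shift.shift.shift.shift.shift.shift.shift
  replace hg := hg.shift.shift.shift.shift.shift.shift.shift.shift
  refine (dq_U8 (PF.var _)).and ?_
  refine (DQ.eq ((PF.var _).mul (PF.var _)) hf).and ?_
  refine (dq_test (PF.var _) (PF.var _)).and ?_
  refine (dq_test (PF.var _) (PF.one.sub (PF.var _))).and ?_
  refine (dq_nrm (PF.var _) (PF.var _)).and ?_
  refine (dq_nrm (PF.var _) (PF.var _)).and ?_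
  refine (dq_nrm hg (PF.var _)).and ?_
  exact dq_test (PF.var _) ((((PF.var _).add (PF.var _)).mul (PF.var _)).sub PF.one)

end Pool.Agent.Helper89K9.AD
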