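import Pool.Agent.Helper89K9.AD.Log2
import Pool.Agent.Helper89K9.AD.Dio2
import Pool.Agent.Helper89K9.AD.Neg

/-!
# The relations and their negations are Diophantine
-/

set_option autoImplicit false

namespace Pool.Agent.Helper89K9.AD

open Pool.Agent.H528R2 Pool.Agent.H528R2.Chain Pool.Agent.H528R2.Dio

/-! ### integrality at `2` -/

theorem dq_Z2 {f : (ℕ → ℚ) → ℚ} (hf : PF f) : DQ (fun v => Vge 2 0 (f v)) := by
  refine DQ.congr (R := fun v => ∃ x y z : ℚ, 7 * f v ^ 2 + 2 = x ^ 2 + y ^ 2 + z ^ 2) ?_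
    (fun v => TH255.HC.z2_iff (f v))
  refine DQ.ex (DQ.ex (DQ.ex ?_))
  exact DQ.eq (((PF.lit 7).mul (hf.shift.shift.shift.pow 2)).add (PF.lit 2))
    ((((PF.var _).pow 2).add ((PF.var _).pow 2)).add ((PF.var _).pow 2))

theorem nz2_iff (r : ℚ) : ¬ Vge 2 0 r ↔ ∃ w : ℚ, 2 * r * w = 1 ∧ Vge 2 0 w := by
  have := Fact.mk Nat.prime_two
  have h2 : padicValRat 2 (2 : ℚ) = 1 := by
    have : ((2 : ℕ) : ℚ) = 2 := by norm_num
    rw [← this]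
    exact padicValRat.self (by norm_num)
  constructor
  · intro h
    have hr : r ≠ 0 := fun h0 => h (Or.inl h0)
    have hv : padicValRat 2 r < 0 := by
      by_contra hc
      exact h (Or.inr (by omega))
    refine ⟨1 / (2 * r), by field_simp, Or.inr ?_⟩
    rw [val_div Nat.prime_two one_ne_zero (mul_ne_zero two_ne_zero hr),
      val_mul Nat.prime_two two_ne_zero hr, h2, padicValRat.one]
    omega
  · rintro ⟨w, hw, hw2⟩ h
    have hr : r ≠ 0 := by rintro rfl; simp at hw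
    have hw0 : w ≠ 0 := by rintro rfl; simp at hw
    have h1 := h.le hr
    have h3 := hw2.le hw0
    have h4 : padicValRat 2 (2 * r * w) = 0 := by rw [hw]; exact padicValRat.one
    rw [val_mul Nat.prime_two (mul_ne_zero two_ne_zero hr) hw0,
      val_mul Nat.prime_two two_ne_zero hr, h2] at h4
    omega

theorem dq_nZ2 {f : (ℕ → ℚ) → ℚ} (hf : PF f) : DQ (fun v => ¬ Vge 2 0 (f v)) := by
  refine DQ.congr (R := fun v => ∃ w : ℚ, 2 * f v * w = 1 ∧ Vge 2 0 w) ?_ (fun v => nz2_iff (f v))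
  refine DQ.ex ?_
  exact (DQ.eq (((PF.lit 2).mul hf.shift).mul (PF.var _)) PF.one).and (dq_Z2 (PF.var _))

/-! ### equations -/

/-- the data of a divisibility test -/
def Eq1 (K : ℚ → ℚ → Prop) (c d e : ℚ) : Prop :=
  ∃ N w w' h k : ℚ, N * d = c ∧ w * c = 1 ∧ w' * e = 1 ∧ h = hst N w 1 ∧ k = nrm w' ∧ K N (h * k)

theorem eq1_iff (K : ℚ → ℚ → Prop) {c d e : ℚ} (hc : c ≠ 0) (hd : d ≠ 0) (he : e ≠ 0) :
    Eq1 K c d e ↔ K (c / d) (hst (c / d) (1 / c) 1 * nrm (1 / e)) := by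
  unfold Eq1
  constructor
  · rintro ⟨N, w, w', h, k, h1, h2, h3, rfl, rfl, h4⟩
    rw [← (eq_div_iff hd).2 h1, ← (eq_div_iff hc).2 h2, ← (eq_div_iff he).2 h3]
    exact h4
  · intro h
    exact ⟨c / d, 1 / c, 1 / e, _, _, div_mul_cancel₀ _ hd, one_div_mul_cancel hc,
      one_div_mul_cancel he, rfl, rfl, h⟩

theorem dq_Eq1 (K : ℚ → ℚ → Prop)
    (hK : ∀ {f g : (ℕ → ℚ) → ℚ}, PF f → PF g → DQ (fun v => K (f v) (g v)))
    {f g h : (ℕ → ℚ) → ℚ} (hf : PF f) (hg : PF g) (hh : PF h) :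
    DQ (fun v => Eq1 K (f v) (g v) (h v)) := by
  unfold Eq1
  refine DQ.ex (DQ.ex (DQ.ex (DQ.ex (DQ.ex ?_))))
  replace hf := hf.shift.shift.shift.shift.shift
  replace hg := hg.shift.shift.shift.shift.shift
  replace hh := hh.shift.shift.shift.shift.shift
  refine (DQ.eq ((PF.var _).mul hg) hf).and ?_
  refine (DQ.eq ((PF.var _).mul hf) PF.one).and ?_
  refine (DQ.eq ((PF.var _).mul hh) PF.one).and ?_
  refine (dq_hst (PF.var _) (PF.var _) PF.one (PF.var _)).and ?_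
  refine (dq_nrm (PF.var _) (PF.var _)).and ?_
  exact hK (PF.var _) ((PF.var _).mul (PF.var _))

/-- the data of a test of the quotient -/
def Eq2 (K : ℚ → ℚ → Prop) (c d e f x : ℚ) : Prop :=
  ∃ N w N' r h k : ℚ, N * d = c ∧ w * c = 1 ∧ N' * f = e ∧ r * N = N' ∧ h = hst N w 1 ∧
    k = nrm (x - r) ∧ K N (h * k)

theorem eq2_iff (K : ℚ → ℚ → Prop) {c d e f : ℚ} (hc : c ≠ 0) (hd : d ≠ 0) (hf : f ≠ 0)
    (x : ℚ) : Eq2 K c d e f x ↔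
      K (c / d) (hst (c / d) (1 / c) 1 * nrm (x - (e / f) / (c / d))) := by
  have hN : c / d ≠ 0 := div_ne_zero hc hd
  unfold Eq2
  constructor
  · rintro ⟨N, w, N', r, h, k, h1, h2, h3, h4, rfl, rfl, h5⟩
    have e1 : N = c / d := (eq_div_iff hd).2 h1
    have e2 : w = 1 / c := (eq_div_iff hc).2 h2
    have e3 : N' = e / f := (eq_div_iff hf).2 h3
    subst e1 e2 e3
    have e4 : r = e / f / (c / d) := (eq_div_iff hN).2 h4
    rw [← e4]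
    exact h5
  · intro h
    exact ⟨c / d, 1 / c, e / f, e / f / (c / d), _, _, div_mul_cancel₀ _ hd,
      one_div_mul_cancel hc, div_mul_cancel₀ _ hf, div_mul_cancel₀ _ hN, rfl, rfl, h⟩

theorem dq_Eq2 (K : ℚ → ℚ → Prop)
    (hK : ∀ {f g : (ℕ → ℚ) → ℚ}, PF f → PF g → DQ (fun v => K (f v) (g v)))
    {f g h k l : (ℕ → ℚ) → ℚ} (hf : PF f) (hg : PF g) (hh : PF h) (hk : PF k)
    (hl : PF l) : DQ (fun v => Eq2 K (f v) (g v) (h v) (k v) (l v)) := by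
  unfold Eq2
  refine DQ.ex (DQ.ex (DQ.ex (DQ.ex (DQ.ex (DQ.ex ?_)))))
  replace hf := hf.shift.shift.shift.shift.shift.shift
  replace hg := hg.shift.shift.shift.shift.shift.shift
  replace hh := hh.shift.shift.shift.shift.shift.shift
  replace hk := hk.shift.shift.shift.shift.shift.shift
  replace hl := hl.shift.shift.shift.shift.shift.shift
  refine (DQ.eq ((PF.var _).mul hg) hf).and ?_
  refine (DQ.eq ((PF.var _).mul hf) PF.one).and ?_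
  refine (DQ.eq ((PF.var _).mul hk) hh).and ?_
  refine (DQ.eq ((PF.var _).mul (PF.var _)) (PF.var _)).and ?_
  refine (dq_hst (PF.var _) (PF.var _) PF.one (PF.var _)).and ?_
  refine (dq_nrm (hl.sub (PF.var _)) (PF.var _)).and ?_
  exact hK (PF.var _) ((PF.var _).mul (PF.var _))

/-- the data of the first `2`-adic test -/
def Eq3 (K : ℚ → Prop) (c e : ℚ) : Prop := ∃ r : ℚ, r * e = c ∧ K r

theorem eq3_iff (K : ℚ → Prop) {c e : ℚ} (he : e ≠ 0) : Eq3 K c e ↔ K (c / e) := by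
  unfold Eq3
  constructor
  · rintro ⟨r, h, h'⟩
    rw [← (eq_div_iff he).2 h]
    exact h'
  · intro h
    exact ⟨c / e, div_mul_cancel₀ _ he, h⟩

theorem dq_Eq3 (K : ℚ → Prop) (hK : ∀ {f : (ℕ → ℚ) → ℚ}, PF f → DQ (fun v => K (f v)))
    {f g : (ℕ → ℚ) → ℚ} (hf : PF f) (hg : PF g) : DQ (fun v => Eq3 K (f v) (g v)) := by
  unfold Eq3
  refine DQ.ex ?_
  exact (DQ.eq ((PF.var _).mul hg.shift) hf.shift).and (hK (PF.var _))

/-- the data of the second `2`-adic test -/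
def Eq4 (K : ℚ → Prop) (c d e f x : ℚ) : Prop :=
  ∃ N N' r s : ℚ, N * d = c ∧ N' * f = e ∧ r * N = N' ∧ s * N ^ 2 = x - r ∧ K s

theorem eq4_iff (K : ℚ → Prop) {c d e f : ℚ} (hc : c ≠ 0) (hd : d ≠ 0) (hf : f ≠ 0) (x : ℚ) :
    Eq4 K c d e f x ↔ K ((x - (e / f) / (c / d)) / (c / d) ^ 2) := by
  have hN : c / d ≠ 0 := div_ne_zero hc hd
  unfold Eq4
  constructor
  · rintro ⟨N, N', r, s, h1, h2, h3, h4, h5⟩
    have e1 : N = c / d := (eq_div_iff hd).2 h1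
    have e2 : N' = e / f := (eq_div_iff hf).2 h2
    subst e1 e2
    have e4 : r = e / f / (c / d) := (eq_div_iff hN).2 h3
    subst e4
    have e5 : s = (x - e / f / (c / d)) / (c / d) ^ 2 := (eq_div_iff (pow_ne_zero 2 hN)).2 h4
    rw [← e5]
    exact h5
  · intro h
    exact ⟨c / d, e / f, e / f / (c / d), _, div_mul_cancel₀ _ hd, div_mul_cancel₀ _ hf,
      div_mul_cancel₀ _ hN, div_mul_cancel₀ _ (pow_ne_zero 2 hN), h⟩

theorem dq_Eq4 (K : ℚ → Prop) (hK : ∀ {f : (ℕ → ℚ) → ℚ}, PF f → DQ (fun v => K (f v)))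
    {f g h k l : (ℕ → ℚ) → ℚ} (hf : PF f) (hg : PF g) (hh : PF h) (hk : PF k) (hl : PF l) :
    DQ (fun v => Eq4 K (f v) (g v) (h v) (k v) (l v)) := by
  unfold Eq4
  refine DQ.ex (DQ.ex (DQ.ex (DQ.ex ?_)))
  replace hf := hf.shift.shift.shift.shift
  replace hg := hg.shift.shift.shift.shift
  replace hh := hh.shift.shift.shift.shift
  replace hk := hk.shift.shift.shift.shift
  replace hl := hl.shift.shift.shift.shift
  refine (DQ.eq ((PF.var _).mul hg) hf).and ?_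
  refine (DQ.eq ((PF.var _).mul hk) hh).and ?_
  refine (DQ.eq ((PF.var _).mul (PF.var _)) (PF.var _)).and ?_
  refine (DQ.eq ((PF.var _).mul ((PF.var _).pow 2)) (hl.sub (PF.var _))).and ?_
  exact hK (PF.var _)

/-! ### relations between points -/

/-- a condition on the multiples by `8`, `24` or `40` of two points -/
def Pts (A : ℚ → ℚ → ℚ → ℚ → Prop) (K : ℚ → ℚ → ℚ → ℚ → Prop) (z y z' y' : ℚ) : Prop :=
  ∃ c d e f : ℚ, A z y c d ∧ A z' y' e f ∧ K c d e f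

theorem pts_iff {A : ℚ → ℚ → ℚ → ℚ → Prop} {a : ℤ}
    (hA : ∀ n : ℤ, n ≠ 0 → ∀ x y, A (zz n) (yy n) x y ↔ x = zz (8 * (a * n)) ∧ y = yy (8 * (a * n)))
    (K : ℚ → ℚ → ℚ → ℚ → Prop) {m n : ℤ} (hm : m ≠ 0) (hn : n ≠ 0) :
    Pts A K (zz m) (yy m) (zz n) (yy n) ↔
      K (zz (8 * (a * m))) (yy (8 * (a * m))) (zz (8 * (a * n))) (yy (8 * (a * n))) := by
  unfold Pts
  constructor
  · rintro ⟨c, d, e, f, h1, h2, h3⟩
    obtain ⟨rfl, rfl⟩ := (hA m hm _ _).1 h1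
    obtain ⟨rfl, rfl⟩ := (hA n hn _ _).1 h2
    exact h3
  · intro h
    exact ⟨_, _, _, _, (hA m hm _ _).2 ⟨rfl, rfl⟩, (hA n hn _ _).2 ⟨rfl, rfl⟩, h⟩

theorem hA1 : ∀ n : ℤ, n ≠ 0 → ∀ x y, Oct (zz n) (yy n) x y ↔
    x = zz (8 * (1 * n)) ∧ y = yy (8 * (1 * n)) := by
  intro n hn x y
  rw [one_mul]
  exact oct_iff hn x y

theorem hA3 : ∀ n : ℤ, n ≠ 0 → ∀ x y, A3 (zz n) (yy n) x y ↔
    x = zz (8 * (3 * n)) ∧ y = yy (8 * (3 * n)) := fun _ hn x y => a3_iff hn x y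

theorem hA5 : ∀ n : ℤ, n ≠ 0 → ∀ x y, A5 (zz n) (yy n) x y ↔
    x = zz (8 * (5 * n)) ∧ y = yy (8 * (5 * n)) := fun _ hn x y => a5_iff hn x y

theorem dq_pts (A : ℚ → ℚ → ℚ → ℚ → Prop)
    (hA : ∀ {f g h k : (ℕ → ℚ) → ℚ}, PF f → PF g → PF h → PF k →
      DQ (fun v => A (f v) (g v) (h v) (k v)))
    {z y z' y' : (ℕ → ℚ) → ℚ} (hz : PF z) (hy : PF y) (hz' : PF z') (hy' : PF y')
    (K : (ℕ → ℚ) → ℚ → ℚ → ℚ → ℚ → Prop)
    (hK : DQ (fun v => K (fun n => v (n + 4)) (v 3) (v 2) (v 1) (v 0))) :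
    DQ (fun v => Pts A (K v) (z v) (y v) (z' v) (y' v)) := by
  unfold Pts
  refine DQ.ex (DQ.ex (DQ.ex (DQ.ex ?_)))
  replace hz := hz.shift.shift.shift.shift
  replace hy := hy.shift.shift.shift.shift
  replace hz' := hz'.shift.shift.shift.shift
  replace hy' := hy'.shift.shift.shift.shift
  refine (hA hz hy (PF.var _) (PF.var _)).and ?_
  refine (hA hz' hy' (PF.var _) (PF.var _)).and ?_
  exact hK

/-- both points are nonzero multiples of `P₀` -/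
def Mul2 (z y z' y' : ℚ) : Prop :=
  (On z y ∧ (IsSquare z ∨ IsSquare (5 * z))) ∧ (On z' y' ∧ (IsSquare z' ∨ IsSquare (5 * z')))

theorem mul2_iff (z y z' y' : ℚ) : Mul2 z y z' y' ↔
    ∃ m n : ℤ, m ≠ 0 ∧ n ≠ 0 ∧ z = zz m ∧ y = yy m ∧ z' = zz n ∧ y' = yy n := by
  unfold Mul2
  rw [← gam_iff, ← gam_iff]
  constructor
  · rintro ⟨⟨m, hm, h1, h2⟩, ⟨n, hn, h3, h4⟩⟩
    exact ⟨m, n, hm, hn, h1, h2, h3, h4⟩
  · rintro ⟨m, n, hm, hn, h1, h2, h3, h4⟩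
    exact ⟨⟨m, hm, h1, h2⟩, ⟨n, hn, h3, h4⟩⟩

theorem dq_mul2 {f g h k : (ℕ → ℚ) → ℚ} (hf : PF f) (hg : PF g) (hh : PF h) (hk : PF k) :
    DQ (fun v => Mul2 (f v) (g v) (h v) (k v)) :=
  (dq_gam hf hg).and (dq_gam hh hk)

/-- divisibility, by equations -/
def DE (z y z' y' : ℚ) : Prop :=
  Pts Oct (fun c d e _ => Eq1 Test c d e ∧ Eq3 (Vge 2 0) c e) z y z' y' ∧
  Pts A3 (fun c d e _ => Eq1 Test c d e) z y z' y' ∧
  Pts A5 (fun c d e _ => Eq1 Test c d e) z y z' y'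

/-- the negation of divisibility, by equations -/
def DE' (z y z' y' : ℚ) : Prop :=
  Pts Oct (fun c d e _ => Eq1 NTest c d e ∨ Eq3 (fun r => ¬ Vge 2 0 r) c e) z y z' y' ∨
  Pts A3 (fun c d e _ => Eq1 NTest c d e) z y z' y' ∨
  Pts A5 (fun c d e _ => Eq1 NTest c d e) z y z' y'

/-- the quotient, by equations -/
def LE (z y z' y' x : ℚ) : Prop :=
  Pts Oct (fun c d e f => Eq2 Test c d e f x ∧ Eq4 (Vge 2 0) c d e f x) z y z' y' ∧
  Pts A3 (fun c d e f => Eq2 Test c d e f x) z y z' y' ∧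
  Pts A5 (fun c d e f => Eq2 Test c d e f x) z y z' y'

/-- the negation, by equations -/
def LE' (z y z' y' x : ℚ) : Prop :=
  Pts Oct (fun c d e f => Eq2 NTest c d e f x ∨ Eq4 (fun r => ¬ Vge 2 0 r) c d e f x) z y z' y' ∨
  Pts A3 (fun c d e f => Eq2 NTest c d e f x) z y z' y' ∨
  Pts A5 (fun c d e f => Eq2 NTest c d e f x) z y z' y'

theorem cd_ne {k : ℤ} (hk : k ≠ 0) : zz (8 * k) ≠ 0 ∧ yy (8 * k) ≠ 0 :=
  ⟨zz_ne (eight_ne hk), yy_ne (eight_ne hk)⟩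

theorem de_iff {m n : ℤ} (hm : m ≠ 0) (hn : n ≠ 0) :
    DE (zz m) (yy m) (zz n) (yy n) ↔ Dv m n := by
  have m3 : 3 * m ≠ 0 := by omega
  have m5 : 5 * m ≠ 0 := by omega
  have n3 : 3 * n ≠ 0 := by omega
  have n5 : 5 * n ≠ 0 := by omega
  unfold DE
  rw [pts_iff hA1 _ hm hn, pts_iff hA3 _ hm hn, pts_iff hA5 _ hm hn, one_mul, one_mul,
    eq1_iff _ (cd_ne hm).1 (cd_ne hm).2 (cd_ne hn).1, eq3_iff _ (cd_ne hn).1,
    eq1_iff _ (cd_ne m3).1 (cd_ne m3).2 (cd_ne n3).1,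
    eq1_iff _ (cd_ne m5).1 (cd_ne m5).2 (cd_ne n5).1, dv_iff]
  rfl

theorem de'_iff {m n : ℤ} (hm : m ≠ 0) (hn : n ≠ 0) :
    DE' (zz m) (yy m) (zz n) (yy n) ↔ ¬ Dv m n := by
  have m3 : 3 * m ≠ 0 := by omega
  have m5 : 5 * m ≠ 0 := by omega
  have n3 : 3 * n ≠ 0 := by omega
  have n5 : 5 * n ≠ 0 := by omega
  have hN : ∀ k : ℤ, k ≠ 0 → zz (8 * k) / yy (8 * k) ≠ 0 := fun k hk =>
    div_ne_zero (cd_ne hk).1 (cd_ne hk).2
  unfold DE'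
  rw [pts_iff hA1 _ hm hn, pts_iff hA3 _ hm hn, pts_iff hA5 _ hm hn, one_mul, one_mul,
    eq1_iff _ (cd_ne hm).1 (cd_ne hm).2 (cd_ne hn).1, eq3_iff _ (cd_ne hn).1,
    eq1_iff _ (cd_ne m3).1 (cd_ne m3).2 (cd_ne n3).1,
    eq1_iff _ (cd_ne m5).1 (cd_ne m5).2 (cd_ne n5).1, dv_iff,
    nTest_iff (hN m hm), nTest_iff (hN _ m3), nTest_iff (hN _ m5)]
  unfold Ts
  tauto

theorem lg3_iff' (m n : ℤ) (x : ℚ) : LgN m n x ↔
    (TsX (zz (8 * m)) (yy (8 * m)) (zz (8 * n)) (yy (8 * n)) x ∧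
      P2 (zz (8 * m)) (yy (8 * m)) (zz (8 * n)) (yy (8 * n)) x) ∧
    TsX (zz (8 * (3 * m))) (yy (8 * (3 * m))) (zz (8 * (3 * n))) (yy (8 * (3 * n))) x ∧
    TsX (zz (8 * (5 * m))) (yy (8 * (5 * m))) (zz (8 * (5 * n))) (yy (8 * (5 * n))) x := by
  have := lg3_iff m n x
  unfold Lg at this
  unfold LgN
  rw [this]
  tauto

theorem le_iff {m n : ℤ} (hm : m ≠ 0) (hn : n ≠ 0) (x : ℚ) :
    LE (zz m) (yy m) (zz n) (yy n) x ↔ LgN m n x := by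
  have m3 : 3 * m ≠ 0 := by omega
  have m5 : 5 * m ≠ 0 := by omega
  have n3 : 3 * n ≠ 0 := by omega
  have n5 : 5 * n ≠ 0 := by omega
  unfold LE
  rw [pts_iff hA1 _ hm hn, pts_iff hA3 _ hm hn, pts_iff hA5 _ hm hn, one_mul, one_mul,
    eq2_iff _ (cd_ne hm).1 (cd_ne hm).2 (cd_ne hn).2,
    eq4_iff _ (cd_ne hm).1 (cd_ne hm).2 (cd_ne hn).2,
    eq2_iff _ (cd_ne m3).1 (cd_ne m3).2 (cd_ne n3).2,
    eq2_iff _ (cd_ne m5).1 (cd_ne m5).2 (cd_ne n5).2, lg3_iff']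
  rfl

theorem le'_iff {m n : ℤ} (hm : m ≠ 0) (hn : n ≠ 0) (x : ℚ) :
    LE' (zz m) (yy m) (zz n) (yy n) x ↔ ¬ LgN m n x := by
  have m3 : 3 * m ≠ 0 := by omega
  have m5 : 5 * m ≠ 0 := by omega
  have n3 : 3 * n ≠ 0 := by omega
  have n5 : 5 * n ≠ 0 := by omega
  have hN : ∀ k : ℤ, k ≠ 0 → zz (8 * k) / yy (8 * k) ≠ 0 := fun k hk =>
    div_ne_zero (cd_ne hk).1 (cd_ne hk).2
  unfold LE'
  rw [pts_iff hA1 _ hm hn, pts_iff hA3 _ hm hn, pts_iff hA5 _ hm hn, one_mul, one_mul,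
    eq2_iff _ (cd_ne hm).1 (cd_ne hm).2 (cd_ne hn).2,
    eq4_iff _ (cd_ne hm).1 (cd_ne hm).2 (cd_ne hn).2,
    eq2_iff _ (cd_ne m3).1 (cd_ne m3).2 (cd_ne n3).2,
    eq2_iff _ (cd_ne m5).1 (cd_ne m5).2 (cd_ne n5).2, lg3_iff',
    nTest_iff (hN m hm), nTest_iff (hN _ m3), nTest_iff (hN _ m5)]
  unfold TsX P2
  tauto

theorem dq_DE : DQ (fun v => Mul2 (v 0) (v 1) (v 2) (v 3) ∧ DE (v 0) (v 1) (v 2) (v 3)) := by
  refine (dq_mul2 (PF.var _) (PF.var _) (PF.var _) (PF.var _)).and ?_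
  unfold DE
  refine (dq_pts Oct dq_Oct (PF.var 0) (PF.var 1) (PF.var 2) (PF.var 3) _ ?_).and
    ((dq_pts A3 dq_A3 (PF.var 0) (PF.var 1) (PF.var 2) (PF.var 3) _ ?_).and
    (dq_pts A5 dq_A5 (PF.var 0) (PF.var 1) (PF.var 2) (PF.var 3) _ ?_))
  · exact (dq_Eq1 Test dq_test (PF.var _) (PF.var _) (PF.var _)).and
      (dq_Eq3 (Vge 2 0) dq_Z2 (PF.var _) (PF.var _))
  · exact dq_Eq1 Test dq_test (PF.var _) (PF.var _) (PF.var _)
  · exact dq_Eq1 Test dq_test (PF.var _) (PF.var _) (PF.var _)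

theorem dq_DE' : DQ (fun v => Mul2 (v 0) (v 1) (v 2) (v 3) ∧ DE' (v 0) (v 1) (v 2) (v 3)) := by
  refine (dq_mul2 (PF.var _) (PF.var _) (PF.var _) (PF.var _)).and ?_
  unfold DE'
  refine (dq_pts Oct dq_Oct (PF.var 0) (PF.var 1) (PF.var 2) (PF.var 3) _ ?_).or
    ((dq_pts A3 dq_A3 (PF.var 0) (PF.var 1) (PF.var 2) (PF.var 3) _ ?_).or
    (dq_pts A5 dq_A5 (PF.var 0) (PF.var 1) (PF.var 2) (PF.var 3) _ ?_))
  · exact (dq_Eq1 NTest dq_NTest (PF.var _) (PF.var _) (PF.var _)).or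
      (dq_Eq3 (fun r => ¬ Vge 2 0 r) dq_nZ2 (PF.var _) (PF.var _))
  · exact dq_Eq1 NTest dq_NTest (PF.var _) (PF.var _) (PF.var _)
  · exact dq_Eq1 NTest dq_NTest (PF.var _) (PF.var _) (PF.var _)

theorem dq_LE : DQ (fun v => Mul2 (v 0) (v 1) (v 2) (v 3) ∧
    LE (v 0) (v 1) (v 2) (v 3) (v 4)) := by
  refine (dq_mul2 (PF.var _) (PF.var _) (PF.var _) (PF.var _)).and ?_
  unfold LE
  refine (dq_pts Oct dq_Oct (PF.var 0) (PF.var 1) (PF.var 2) (PF.var 3)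
    (fun v c d e f => Eq2 Test c d e f (v 4) ∧ Eq4 (Vge 2 0) c d e f (v 4)) ?_).and
    ((dq_pts A3 dq_A3 (PF.var 0) (PF.var 1) (PF.var 2) (PF.var 3)
      (fun v c d e f => Eq2 Test c d e f (v 4)) ?_).and
    (dq_pts A5 dq_A5 (PF.var 0) (PF.var 1) (PF.var 2) (PF.var 3)
      (fun v c d e f => Eq2 Test c d e f (v 4)) ?_))
  · exact (dq_Eq2 Test dq_test (PF.var _) (PF.var _) (PF.var _) (PF.var _) (PF.var _)).and
      (dq_Eq4 (Vge 2 0) dq_Z2 (PF.var _) (PF.var _) (PF.var _) (PF.var _) (PF.var _))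
  · exact dq_Eq2 Test dq_test (PF.var _) (PF.var _) (PF.var _) (PF.var _) (PF.var _)
  · exact dq_Eq2 Test dq_test (PF.var _) (PF.var _) (PF.var _) (PF.var _) (PF.var _)

theorem dq_LE' : DQ (fun v => Mul2 (v 0) (v 1) (v 2) (v 3) ∧
    LE' (v 0) (v 1) (v 2) (v 3) (v 4)) := by
  refine (dq_mul2 (PF.var _) (PF.var _) (PF.var _) (PF.var _)).and ?_
  unfold LE'
  refine (dq_pts Oct dq_Oct (PF.var 0) (PF.var 1) (PF.var 2) (PF.var 3)
    (fun v c d e f => Eq2 NTest c d e f (v 4) ∨ Eq4 (fun r => ¬ Vge 2 0 r) c d e f (v 4)) ?_).or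
    ((dq_pts A3 dq_A3 (PF.var 0) (PF.var 1) (PF.var 2) (PF.var 3)
      (fun v c d e f => Eq2 NTest c d e f (v 4)) ?_).or
    (dq_pts A5 dq_A5 (PF.var 0) (PF.var 1) (PF.var 2) (PF.var 3)
      (fun v c d e f => Eq2 NTest c d e f (v 4)) ?_))
  · exact (dq_Eq2 NTest dq_NTest (PF.var _) (PF.var _) (PF.var _) (PF.var _) (PF.var _)).or
      (dq_Eq4 (fun r => ¬ Vge 2 0 r) dq_nZ2 (PF.var _) (PF.var _) (PF.var _) (PF.var _) (PF.var _))
  · exact dq_Eq2 NTest dq_NTest (PF.var _) (PF.var _) (PF.var _) (PF.var _) (PF.var _)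
  · exact dq_Eq2 NTest dq_NTest (PF.var _) (PF.var _) (PF.var _) (PF.var _) (PF.var _)

end Pool.Agent.Helper89K9.AD
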