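import Pool.Agent.Helper89K9.AD.Rel
import Pool.Agent.H528R2.Formal
import Pool.Agent.H528R2.Diff

/-!
# The quotient of two indices modulo the visible primes
-/

set_option autoImplicit false

namespace Pool.Agent.Helper89K9.AD

open Pool.Agent.H528R2 Pool.Agent.H528R2.CoreB Pool.Agent.H528R2.Chain

/-- a test at the visible primes of odd multiplicity -/
theorem test_gen {m : ℤ} (hm : m ≠ 0) (X : ℚ) :
    Test (zz (8 * m) / yy (8 * m)) (hst (zz (8 * m) / yy (8 * m)) (1 / zz (8 * m)) 1 * nrm X) ↔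
      ∀ q, Inert q → Vis q m → Odd (dd q (8 * m)) → Vge q 1 X := by
  have hc : zz (8 * m) ≠ 0 := zz_ne (eight_ne hm)
  have hd : yy (8 * m) ≠ 0 := yy_ne (eight_ne hm)
  have hN : zz (8 * m) / yy (8 * m) ≠ 0 := div_ne_zero hc hd
  have hw : 1 / zz (8 * m) ≠ 0 := one_div_ne_zero hc
  rw [test_iff hN]
  by_cases hX : X = 0
  · subst hX
    have h0 : nrm 0 = 0 := nrm_eq_zero.2 rfl
    rw [h0, mul_zero]
    exact ⟨fun _ _ _ _ _ => Vge.zero _ _, fun _ _ _ _ => Vge.zero _ _⟩
  apply forall_congr'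
  intro q
  apply forall_congr'
  intro hq
  have hh := val_hst hq hN hw one_ne_zero
  have vw : padicValRat q (1 / zz (8 * m)) = - padicValRat q (zz (8 * m)) := by
    rw [one_div, val_inv hq.1]
  have vN : padicValRat q (zz (8 * m) / yy (8 * m)) =
      padicValRat q (zz (8 * m)) - padicValRat q (yy (8 * m)) := val_div hq.1 hc hd
  have hnr : nrm X ≠ 0 := fun h => hX (nrm_eq_zero.1 h)
  have vF : padicValRat q (hst (zz (8 * m) / yy (8 * m)) (1 / zz (8 * m)) 1 * nrm X) =
      padicValRat q (hst (zz (8 * m) / yy (8 * m)) (1 / zz (8 * m)) 1) +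
      padicValRat q (nrm X) := val_mul hq.1 hh.1 hnr
  have hF : hst (zz (8 * m) / yy (8 * m)) (1 / zz (8 * m)) 1 * nrm X ≠ 0 :=
    mul_ne_zero hh.1 hnr
  have v1 : padicValRat q (1 : ℚ) = 0 := padicValRat.one
  have hnv := (vge_nrm hq X).le hnr
  have hvis : 1 ≤ padicValRat q (nrm X) ↔ Vge q 1 X := by
    rw [← vge_one_nrm hq]
    constructor
    · intro h; exact Or.inr h
    · intro h; exact h.resolve_left hnr
  by_cases hv : Vis q m
  · have h1 := val_zz_vis hq.1 hm hv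
    have e1 : padicValRat q (zz (8 * m) / yy (8 * m)) = dd q (8 * m) := by rw [vN]; omega
    have e2 : padicValRat q (hst (zz (8 * m) / yy (8 * m)) (1 / zz (8 * m)) 1) = 0 := by
      rw [hh.2, e1, vw, v1, abs_of_nonneg (by positivity)]
      omega
    have e3 : Vge q 1 (hst (zz (8 * m) / yy (8 * m)) (1 / zz (8 * m)) 1 * nrm X) ↔
        Vge q 1 X := by
      rw [← hvis]
      constructor
      · intro h
        have := h.le hF
        rwa [vF, e2, zero_add] at this
      · intro h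
        right
        rwa [vF, e2, zero_add]
    rw [e3, e1]
    have e4 : Odd ((dd q (8 * m) : ℕ) : ℤ) ↔ Odd (dd q (8 * m)) := Int.odd_coe_nat _
    rw [e4]
    constructor
    · intro h _ h'; exact h h'
    · intro h h'; exact h hv h'
  · constructor
    · intro _ h; exact absurd h hv
    · intro _ hodd
      right
      have h3 := val_zz_not_vis hq.1 hm hv
      rw [vF, hh.2, vw, v1]
      have h0 : padicValRat q (zz (8 * m) / yy (8 * m)) ≠ 0 := by
        intro h0
        rw [h0] at hodd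
        simp at hodd
      have h4 : 1 ≤ |padicValRat q (zz (8 * m) / yy (8 * m))| := Int.one_le_abs h0
      omega

theorem vge_one_iff {q : ℕ} (hq : q.Prime) (x : ℚ) : Vge q 1 x ↔ padicNorm q x < 1 := by
  have := Fact.mk hq
  have hq1 : (1 : ℚ) < q := by exact_mod_cast hq.one_lt
  by_cases hx : x = 0
  · subst hx
    simp [Vge]
  · rw [padicNorm.eq_zpow_of_nonzero hx]
    constructor
    · intro h
      have := h.le hx
      apply zpow_lt_one_of_neg₀ hq1
      omega
    · intro h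
      right
      by_contra hc
      push Not at hc
      have : (1 : ℚ) ≤ (q : ℚ) ^ (-padicValRat q x) := one_le_zpow₀ hq1.le (by omega)
      exact absurd h (not_lt.2 this)

/-- the quotient of the local parameters -/
theorem ratio {q : ℕ} (hq : q.Prime) {n : ℤ} (hn : n ≠ 0) (h : (rk q : ℤ) ∣ n) (k : ℤ) :
    Vge q 1 ((zz (k * n) / yy (k * n)) / (zz n / yy n) - k) := by
  have := Fact.mk hq
  have hpole : padicValRat q (ptX (n • P0)) < 0 := (dvd_iff hq hn).1 h
  obtain ⟨hX0, hY0, hz0, hz1, -, -⟩ := Formal.pole_facts hpole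
  rw [vge_one_iff hq]
  have key : ∀ j : ℕ, padicNorm q (Formal.zf (j • (n • P0)) / Formal.zf (n • P0) - j) < 1 := by
    intro j
    have h1 := (Formal.nsmul_aux hpole j).2
    have h2 : Formal.zf (j • (n • P0)) / Formal.zf (n • P0) - j =
        (Formal.zf (j • (n • P0)) - j * Formal.zf (n • P0)) / Formal.zf (n • P0) := by
      field_simp
    rw [h2, padicNorm.div]
    have h3 : 0 < padicNorm q (Formal.zf (n • P0)) :=
      lt_of_le_of_ne (padicNorm.nonneg _) (Ne.symm (padicNorm.nonzero hz0))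
    have h4 : padicNorm q (Formal.zf (n • P0)) < 1 :=
      (Formal.zf_norm_le hpole).trans_lt (inv_lt_one_of_one_lt₀ (by exact_mod_cast hq.one_lt))
    rw [div_lt_one h3]
    refine lt_of_le_of_lt h1 ?_
    calc padicNorm q (Formal.zf (n • P0)) ^ 3 =
          padicNorm q (Formal.zf (n • P0)) ^ 2 * padicNorm q (Formal.zf (n • P0)) := by ring
      _ < 1 * padicNorm q (Formal.zf (n • P0)) := by
          apply mul_lt_mul_of_pos_right _ h3
          exact pow_lt_one₀ h3.le h4 two_ne_zero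
      _ = _ := one_mul _
  have e0 : ∀ j : ℤ, zz j / yy j = - Formal.zf (j • P0) := by
    intro j
    unfold zz yy Formal.zf
    ring
  have e1 : ∀ j : ℤ, (zz (j * n) / yy (j * n)) / (zz n / yy n) =
      Formal.zf (j • (n • P0)) / Formal.zf (n • P0) := by
    intro j
    rw [e0, e0, neg_div_neg_eq, mul_zsmul]
  rw [e1]
  rcases Int.eq_nat_or_neg k with ⟨j, rfl | rfl⟩
  · have := key j
    rw [natCast_zsmul]
    exact_mod_cast this
  · have := key j
    rw [neg_zsmul, natCast_zsmul, Formal.zf_neg, neg_div]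
    have e2 : -(Formal.zf (j • n • P0) / Formal.zf (n • P0)) - ((-(j : ℤ) : ℤ) : ℚ) =
        -(Formal.zf (j • n • P0) / Formal.zf (n • P0) - j) := by
      push_cast; ring
    rw [e2, padicNorm.neg]
    exact this

theorem Vge.sub_iff {q : ℕ} (hq : q.Prime) {x y z : ℚ} (h : Vge q 1 (y - z)) :
    Vge q 1 (x - y) ↔ Vge q 1 (x - z) := by
  constructor
  · intro h'
    have := Vge.add hq h' h
    have e : x - y + (y - z) = x - z := by ring
    rwa [e] at this
  · intro h'
    have := Vge.sub hq h' h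
    have e : x - z - (y - z) = x - y := by ring
    rwa [e] at this

/-- the test for the quotient -/
def TsX (c d e f x : ℚ) : Prop :=
  Test (c / d) (hst (c / d) (1 / c) 1 * nrm (x - (e / f) / (c / d)))

theorem tsX_iff {m : ℤ} (hm : m ≠ 0) (k : ℤ) (x : ℚ) :
    TsX (zz (8 * m)) (yy (8 * m)) (zz (8 * (k * m))) (yy (8 * (k * m))) x ↔
      ∀ q, Inert q → Vis q m → Odd (dd q (8 * m)) → Vge q 1 (x - k) := by
  unfold TsX
  rw [test_gen hm]
  have e : 8 * (k * m) = k * (8 * m) := by ring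
  rw [e]
  apply forall_congr'
  intro q
  apply forall_congr'
  intro hq
  apply forall_congr'
  intro hv
  apply forall_congr'
  intro _
  exact Vge.sub_iff hq.1 (ratio hq.1 (eight_ne hm) hv k)

/-- the primes seen at the index `m` -/
def Qs (m : ℤ) : Set ℕ :=
  {q | Inert q ∧ ∃ a ∈ ({1, 3, 5} : Finset ℕ), Vis q (a * m) ∧ Odd (dd q (8 * (a * m)))}

theorem Qs_finite {m : ℤ} (hm : m ≠ 0) : (Qs m).Finite := by
  have h : ∀ a ∈ ({1, 3, 5} : Finset ℕ), {s : ℕ | s.Prime ∧ (rk s : ℤ) ∣ 8 * (a * m)}.Finite := by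
    intro a ha
    apply finite_rk
    have : (a : ℤ) ≠ 0 := by exact_mod_cast pos_of_mem ha
    exact mul_ne_zero (by norm_num) (mul_ne_zero this hm)
  refine (Set.Finite.biUnion (({1, 3, 5} : Finset ℕ).finite_toSet) h).subset ?_
  rintro q ⟨hq, a, ha, hv, -⟩
  exact Set.mem_biUnion (Finset.mem_coe.2 ha) ⟨hq.1, hv⟩

open Classical in
/-- the product of the primes seen at the index `m` -/
noncomputable def Nm (m : ℤ) : ℕ := if h : (Qs m).Finite then ∏ q ∈ h.toFinset, q else 1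

theorem dvd_Nm {m : ℤ} (hm : m ≠ 0) {p : ℕ} (hp : p.Prime) : p ∣ Nm m ↔ p ∈ Qs m := by
  unfold Nm
  rw [dif_pos (Qs_finite hm), hp.prime.dvd_finsetProd_iff]
  constructor
  · rintro ⟨q, hq, hpq⟩
    rw [Set.Finite.mem_toFinset] at hq
    rwa [(Nat.prime_dvd_prime_iff_eq hp hq.1.1).1 hpq]
  · intro h
    exact ⟨p, (Set.Finite.mem_toFinset _).2 h, dvd_rfl⟩

theorem Nm_squarefree {m : ℤ} (hm : m ≠ 0) : Squarefree (Nm m) := by
  unfold Nm
  rw [dif_pos (Qs_finite hm)]
  refine Finset.squarefree_prod_of_pairwise_isCoprime (fun a ha b hb hab => ?_) fun q hq => ?_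
  · rw [Finset.mem_coe, Set.Finite.mem_toFinset] at ha hb
    rw [Function.onFun, ← Nat.coprime_iff_isRelPrime]
    exact (Nat.coprime_primes ha.1.1 hb.1.1).2 hab
  · rw [Set.Finite.mem_toFinset] at hq
    exact hq.1.1.prime.squarefree

theorem rk_le' {q : ℕ} (hq : Inert q) : rk q ≤ 2 * q + 1 := by
  by_cases h : 7 ≤ q
  · exact rk_le hq h
  · have h35 : q = 3 ∨ q = 5 := by
      rcases hq.2 with h8 | h8 <;> omega
    have h6 : rk q ∣ 6 := by exact_mod_cast rk_small h35
    have := Nat.le_of_dvd (by norm_num) h6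
    omega

/-- a prime seen at `m` whose rank is divisible by a given good prime power -/
theorem large' {m : ℤ} (hm : m ≠ 0) {p : ℕ} (hp : p.Prime) (hp2 : p ≠ 2) (h1 : p % 16 ≠ 1)
    (h15 : p % 16 ≠ 15) {e : ℕ} (he : e ≠ 0) (h : ((p ^ e : ℕ) : ℤ) ∣ m) :
    ∃ q : ℕ, q ∈ Qs m ∧ p ^ e ∣ rk q := by
  have Fp := Fact.mk hp
  have hM0 : m.natAbs ≠ 0 := Int.natAbs_ne_zero.2 hm
  obtain ⟨k, o, ho, hMo⟩ := Nat.exists_eq_two_pow_mul_odd hM0
  have ho0 : o ≠ 0 := by rintro rfl; simp at ho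
  have hpM : p ^ e ∣ m.natAbs := Int.natCast_dvd.1 h
  have hpo' : p ^ e ∣ o := by
    rw [hMo] at hpM
    refine (Nat.Coprime.pow e k ?_).dvd_of_dvd_mul_left hpM
    exact (Nat.coprime_primes hp Nat.prime_two).2 hp2
  have hpo : p ∣ o := (dvd_pow_self p he).trans hpo'
  obtain ⟨m₁, hm₁⟩ := hpo
  have hm₁0 : m₁ ≠ 0 := by rintro rfl; simp at hm₁; exact ho0 hm₁
  have hm₁odd : Odd m₁ := Odd.of_dvd_nat ho ⟨p, by rw [hm₁, mul_comm]⟩
  obtain ⟨a, ha, s, hs, h2, h3, h4⟩ := core_new hm₁odd hp hp2 h1 h15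
  have ha0 := pos_of_mem ha
  have ha0' : (a : ℤ) ≠ 0 := by exact_mod_cast ha0
  have Fs := Fact.mk hs.1
  have hs2 : s ≠ 2 := inert_ne_two hs
  have ham : (a : ℤ) * m ≠ 0 := mul_ne_zero ha0' hm
  have eM : m.natAbs = 2 ^ k * (m₁ * p) := by rw [hMo, hm₁]; ring
  have eaM : ((a : ℤ) * m).natAbs = 2 ^ k * (a * m₁ * p) := by
    rw [Int.natAbs_mul, Int.natAbs_natCast, eM]; ring
  have hvis : Vis s (a * m) := by
    unfold Vis
    apply dvd_mul_of_dvd_right
    rw [Int.natCast_dvd, eaM]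
    exact h2.trans (dvd_mul_left _ _)
  have hX0 : a * m₁ * p ≠ 0 := mul_ne_zero (mul_ne_zero ha0 hm₁0) hp.ne_zero
  have hv2 : padicValInt s (a * m) = padicValNat s (a * m₁ * p) := by
    unfold padicValInt
    rw [eaM, padicValNat.mul (by positivity) hX0, padicValNat.pow,
      padicValNat_primes hs2, mul_zero, zero_add]
  have hodd : Odd (dd s (8 * (a * m))) := by
    have e1 := dd_eight hs ham hvis
    have e2 := dd_of hs.1 hX0 h2
    rw [hv2] at e1
    have e3 : dd s (8 * (a * m)) = dd s ((a * m₁ * p : ℕ) : ℤ) := by omega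
    rw [e3]
    exact h4
  refine ⟨s, ⟨hs, a, ha, hvis, hodd⟩, ?_⟩
  have hR0 : rk s ≠ 0 := by
    intro h0
    rw [h0] at h2
    exact hX0 (zero_dvd_iff.1 h2)
  have hx0 : a * m₁ ≠ 0 := mul_ne_zero ha0 hm₁0
  have h5 : padicValNat p (a * m₁) < padicValNat p (rk s) := by
    by_contra hc
    push Not at hc
    exact h3 (dvd_of_val hp hx0 hR0 (by rw [mul_comm p]; exact h2) hc)
  have h6 : e ≤ padicValNat p o := (padicValNat_dvd_iff_le ho0).1 hpo'
  rw [hm₁, padicValNat.mul hp.ne_zero hm₁0, padicValNat_self] at h6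
  rw [padicValNat.mul ha0 hm₁0] at h5
  rw [padicValNat_dvd_iff_le hR0]
  omega

/-- the modulus is large: its square exceeds all good divisors -/
theorem Nm_large {m : ℤ} (hm : m ≠ 0) {d : ℤ} (hd : d ∣ m)
    (hgood : ∀ p : ℕ, p.Prime → (p : ℤ) ∣ d → p ≠ 2 ∧ p % 16 ≠ 1 ∧ p % 16 ≠ 15) :
    |d| ≤ (Nm m : ℤ) ^ 2 := by
  have hd0 : d ≠ 0 := by rintro rfl; exact hm (zero_dvd_iff.1 hd)
  have hfin := Qs_finite hm
  have hrk : ∀ q ∈ Qs m, rk q ≠ 0 := by
    rintro q ⟨hq, a, ha, hv, -⟩ h0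
    unfold Vis at hv
    rw [h0] at hv
    have ha0 : (a : ℤ) ≠ 0 := by exact_mod_cast pos_of_mem ha
    exact (mul_ne_zero (by norm_num : (8 : ℤ) ≠ 0) (mul_ne_zero ha0 hm)) (by simpa using hv)
  have hR0 : ∏ q ∈ hfin.toFinset, rk q ≠ 0 := by
    rw [Finset.prod_ne_zero_iff]
    intro q hq
    exact hrk q ((Set.Finite.mem_toFinset _).1 hq)
  have hdvd : d.natAbs ∣ ∏ q ∈ hfin.toFinset, rk q := by
    rw [← Nat.factorization_le_iff_dvd (Int.natAbs_ne_zero.2 hd0) hR0]
    intro p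
    by_cases hp : p.Prime
    · have Fp := Fact.mk hp
      by_cases hpd : p ∣ d.natAbs
      · have hg := hgood p hp (Int.natCast_dvd.2 hpd)
        have h1 : ((p ^ padicValNat p d.natAbs : ℕ) : ℤ) ∣ m :=
          (Int.natCast_dvd.2 pow_padicValNat_dvd).trans hd
        have h0 : padicValNat p d.natAbs ≠ 0 := by
          have := one_le_padicValNat_of_dvd (Int.natAbs_ne_zero.2 hd0) hpd
          omega
        obtain ⟨q, hq, h2⟩ := large' hm hp hg.1 hg.2.1 hg.2.2 h0 h1
        rw [Nat.factorization_def _ hp, Nat.factorization_def _ hp,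
          ← padicValNat_dvd_iff_le hR0]
        exact h2.trans (Finset.dvd_prod_of_mem _ ((Set.Finite.mem_toFinset _).2 hq))
      · rw [Nat.factorization_eq_zero_of_not_dvd hpd]
        exact Nat.zero_le _
    · rw [Nat.factorization_eq_zero_of_not_prime _ hp]
      exact Nat.zero_le _
  have h1 := Nat.le_of_dvd (Nat.pos_of_ne_zero hR0) hdvd
  have h2 : ∏ q ∈ hfin.toFinset, rk q ≤ ∏ q ∈ hfin.toFinset, q ^ 2 := by
    apply Finset.prod_le_prod' 
    intro q hq
    have hq' := ((Set.Finite.mem_toFinset _).1 hq).1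
    have h3 := rk_le' hq'
    have h4 : 3 ≤ q := by rcases hq'.2 with h | h <;> omega
    nlinarith
  have h3 : ∏ q ∈ hfin.toFinset, q ^ 2 = Nm m ^ 2 := by
    unfold Nm
    rw [dif_pos hfin, Finset.prod_pow]
  rw [h3] at h2
  have h4 : d.natAbs ≤ Nm m ^ 2 := h1.trans h2
  rw [Int.abs_eq_natAbs]
  exact_mod_cast h4

end Pool.Agent.Helper89K9.AD
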