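import Pool.Agent.Helper89K9.AD.Log

/-!
# The quotient of two indices modulo `N m`
-/

set_option autoImplicit false

namespace Pool.Agent.Helper89K9.AD

open Pool.Agent.H528R2 Pool.Agent.H528R2.CoreB Pool.Agent.H528R2.Chain

theorem vge_iff_norm {q : ℕ} (hq : q.Prime) (j : ℤ) (x : ℚ) :
    Vge q j x ↔ padicNorm q x ≤ (q : ℚ) ^ (-j) := by
  have := Fact.mk hq
  have hq1 : (1 : ℚ) < q := by exact_mod_cast hq.one_lt
  by_cases hx : x = 0
  · subst hx
    rw [padicNorm.zero]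
    exact ⟨fun _ => by positivity, fun _ => Vge.zero _ _⟩
  · rw [padicNorm.eq_zpow_of_nonzero hx, zpow_le_zpow_iff_right₀ hq1]
    constructor
    · intro h
      have := h.le hx
      omega
    · intro h
      right
      omega

theorem val_two_zz8 : padicValRat 2 (zz 8) = -6 := by
  have := Fact.mk Nat.prime_two
  rw [zz_eight]
  have e1 : (36481 / 18496 : ℚ) = ((36481 : ℕ) : ℚ) / ((2 ^ 6 * 289 : ℕ) : ℚ) := by norm_num
  have e2 : padicValNat 2 (2 ^ 6 * 289) = 6 := by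
    rw [padicValNat.mul (by norm_num) (by norm_num), padicValNat.prime_pow,
      padicValNat.eq_zero_of_not_dvd (by norm_num)]
  rw [e1, padicValRat.div (by norm_num) (by norm_num), padicValRat.of_nat, padicValRat.of_nat,
    e2, padicValNat.eq_zero_of_not_dvd (by norm_num)]
  norm_num

theorem pole_two {m : ℤ} (hm : m ≠ 0) : padicValRat 2 (ptX ((8 * m) • P0)) < 0 := by
  have h := val_two hm
  rw [val_two_zz8] at h
  change padicValRat 2 (ptX ((8 * m) • P0)) = _ at h
  rw [h]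
  have : (0 : ℤ) ≤ padicValInt 2 m := by positivity
  omega

theorem val_two_g {m : ℤ} (hm : m ≠ 0) :
    padicValRat 2 (zz (8 * m) / yy (8 * m)) = 3 + padicValInt 2 m := by
  have := Fact.mk Nat.prime_two
  obtain ⟨hX0, hY0, hz0, hz1, hv, -⟩ := Formal.pole_facts (pole_two hm)
  have h := val_two hm
  rw [val_two_zz8] at h
  change padicValRat 2 (ptX ((8 * m) • P0)) = _ at h
  have e : zz (8 * m) / yy (8 * m) = - Formal.zf ((8 * m) • P0) := by
    unfold zz yy Formal.zf
    ring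
  rw [e, padicValRat.neg]
  omega

/-- the quotient of the local parameters, `2`-adically -/
theorem ratio_two {m : ℤ} (hm : m ≠ 0) (k : ℤ) :
    Vge 2 (6 + 2 * padicValInt 2 m)
      ((zz (8 * (k * m)) / yy (8 * (k * m))) / (zz (8 * m) / yy (8 * m)) - k) := by
  have := Fact.mk Nat.prime_two
  have hpole := pole_two hm
  obtain ⟨hX0, hY0, hz0, hz1, -, -⟩ := Formal.pole_facts hpole
  rw [vge_iff_norm Nat.prime_two]
  have hvg := val_two_g hm
  have e0 : ∀ j : ℤ, zz j / yy j = - Formal.zf (j • P0) := by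
    intro j
    unfold zz yy Formal.zf
    ring
  have hn : padicNorm 2 (Formal.zf ((8 * m) • P0)) ^ 2 =
      ((2 : ℕ) : ℚ) ^ (-(6 + 2 * (padicValInt 2 m : ℤ))) := by
    rw [e0, padicValRat.neg] at hvg
    rw [padicNorm.eq_zpow_of_nonzero hz0, hvg, ← zpow_natCast, ← zpow_mul]
    congr 1
    push_cast
    ring
  rw [← hn]
  have key : ∀ j : ℕ, padicNorm 2 (Formal.zf (j • ((8 * m) • P0)) / Formal.zf ((8 * m) • P0) - j)
      ≤ padicNorm 2 (Formal.zf ((8 * m) • P0)) ^ 2 := by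
    intro j
    have h1 := (Formal.nsmul_aux hpole j).2
    have h2 : Formal.zf (j • ((8 * m) • P0)) / Formal.zf ((8 * m) • P0) - j =
        (Formal.zf (j • ((8 * m) • P0)) - j * Formal.zf ((8 * m) • P0)) /
          Formal.zf ((8 * m) • P0) := by
      field_simp
    rw [h2, padicNorm.div]
    have h3 : 0 < padicNorm 2 (Formal.zf ((8 * m) • P0)) :=
      lt_of_le_of_ne (padicNorm.nonneg _) (Ne.symm (padicNorm.nonzero hz0))
    rw [div_le_iff₀ h3]
    refine h1.trans (le_of_eq ?_)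
    ring
  have e1 : ∀ j : ℤ, (zz (8 * (j * m)) / yy (8 * (j * m))) / (zz (8 * m) / yy (8 * m)) =
      Formal.zf (j • ((8 * m) • P0)) / Formal.zf ((8 * m) • P0) := by
    intro j
    have e : 8 * (j * m) = j * (8 * m) := by ring
    rw [e0, e0, neg_div_neg_eq, e, mul_zsmul]
  rw [e1]
  rcases Int.eq_nat_or_neg k with ⟨j, rfl | rfl⟩
  · have := key j
    rw [natCast_zsmul]
    exact_mod_cast this
  · have := key j
    rw [neg_zsmul, natCast_zsmul, Formal.zf_neg, neg_div]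
    have e2 : -(Formal.zf (j • (8 * m) • P0) / Formal.zf ((8 * m) • P0)) -
        ((-(j : ℤ) : ℤ) : ℚ) =
        -(Formal.zf (j • (8 * m) • P0) / Formal.zf ((8 * m) • P0) - j) := by
      push_cast; ring
    rw [e2, padicNorm.neg]
    exact this

/-- the `2`-adic test for the quotient -/
def P2 (c d e f x : ℚ) : Prop := Vge 2 0 ((x - (e / f) / (c / d)) / (c / d) ^ 2)

theorem p2_iff {m : ℤ} (hm : m ≠ 0) (k : ℤ) (x : ℚ) :
    P2 (zz (8 * m)) (yy (8 * m)) (zz (8 * (k * m))) (yy (8 * (k * m))) x ↔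
      Vge 2 (6 + 2 * padicValInt 2 m) (x - k) := by
  have hc : zz (8 * m) ≠ 0 := zz_ne (eight_ne hm)
  have hd : yy (8 * m) ≠ 0 := yy_ne (eight_ne hm)
  have hg : zz (8 * m) / yy (8 * m) ≠ 0 := div_ne_zero hc hd
  have hr := ratio_two hm k
  have hvg := val_two_g hm
  set r := (zz (8 * (k * m)) / yy (8 * (k * m))) / (zz (8 * m) / yy (8 * m)) with hr'
  set g := zz (8 * m) / yy (8 * m) with hg'
  have h1 : P2 (zz (8 * m)) (yy (8 * m)) (zz (8 * (k * m))) (yy (8 * (k * m))) x ↔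
      Vge 2 (6 + 2 * padicValInt 2 m) (x - r) := by
    unfold P2
    change Vge 2 0 ((x - r) / g ^ 2) ↔ _
    by_cases hx : x - r = 0
    · rw [hx, zero_div]
      exact ⟨fun _ => Vge.zero _ _, fun _ => Vge.zero _ _⟩
    · have hq : (x - r) / g ^ 2 ≠ 0 := div_ne_zero hx (pow_ne_zero 2 hg)
      have hv : padicValRat 2 ((x - r) / g ^ 2) =
          padicValRat 2 (x - r) - (6 + 2 * padicValInt 2 m) := by
        rw [val_div Nat.prime_two hx (pow_ne_zero 2 hg), val_pow Nat.prime_two, hvg]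
        push_cast
        ring
      constructor
      · intro h
        have := h.le hq
        right
        omega
      · intro h
        have := h.le hx
        right
        omega
  rw [h1]
  constructor
  · intro h
    have := Vge.add Nat.prime_two h hr
    have e : x - r + (r - k) = x - k := by ring
    rwa [e] at this
  · intro h
    have := Vge.sub Nat.prime_two h hr
    have e : x - k - (r - k) = x - r := by ring
    rwa [e] at this

/-- the modulus -/
noncomputable def NN (m : ℤ) : ℕ := 2 ^ (6 + 2 * padicValInt 2 m) * Nm m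

theorem Nm_ne {m : ℤ} (hm : m ≠ 0) : Nm m ≠ 0 := (Nm_squarefree hm).ne_zero

theorem two_not_dvd {m : ℤ} (hm : m ≠ 0) : ¬ 2 ∣ Nm m := by
  rw [dvd_Nm hm Nat.prime_two]
  rintro ⟨h, -⟩
  exact inert_ne_two h rfl

/-- the tests for the quotient -/
def LgN (m n : ℤ) (x : ℚ) : Prop :=
  (∀ a ∈ ({1, 3, 5} : Finset ℕ), TsX (zz (8 * (a * m))) (yy (8 * (a * m)))
    (zz (8 * (a * n))) (yy (8 * (a * n))) x) ∧
  P2 (zz (8 * m)) (yy (8 * m)) (zz (8 * n)) (yy (8 * n)) x

theorem lgN_iff {m : ℤ} (hm : m ≠ 0) (k : ℤ) (x : ℚ) :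
    LgN m (k * m) x ↔ ∀ q : ℕ, q.Prime → q ∣ NN m →
      padicNorm q (x - k) ≤ padicNorm q (NN m : ℚ) := by
  have F2 := Fact.mk Nat.prime_two
  have hN0 := Nm_ne hm
  have h20 : 2 ^ (6 + 2 * padicValInt 2 m) ≠ 0 := by positivity
  have key : LgN m (k * m) x ↔ (∀ q ∈ Qs m, Vge q 1 (x - k)) ∧
      Vge 2 (6 + 2 * padicValInt 2 m) (x - k) := by
    unfold LgN
    rw [p2_iff hm]
    refine and_congr_left fun _ => ?_
    constructor
    · rintro h q ⟨hq, a, ha, hv, hodd⟩
      have ha0 : (a : ℤ) ≠ 0 := by exact_mod_cast pos_of_mem ha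
      have h1 := h a ha
      have e : (a : ℤ) * (k * m) = k * (a * m) := by ring
      rw [e, tsX_iff (mul_ne_zero ha0 hm)] at h1
      exact h1 q hq hv hodd
    · intro h a ha
      have ha0 : (a : ℤ) ≠ 0 := by exact_mod_cast pos_of_mem ha
      have e : (a : ℤ) * (k * m) = k * (a * m) := by ring
      rw [e, tsX_iff (mul_ne_zero ha0 hm)]
      intro q hq hv hodd
      exact h q ⟨hq, a, ha, hv, hodd⟩
  rw [key]
  have n2 : padicNorm 2 (NN m : ℚ) = ((2 : ℕ) : ℚ) ^ (-(6 + 2 * (padicValInt 2 m : ℤ))) := by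
    have h0 : (NN m : ℚ) ≠ 0 := by
      have : NN m ≠ 0 := mul_ne_zero h20 hN0
      exact_mod_cast this
    rw [padicNorm.eq_zpow_of_nonzero h0, padicValRat.of_nat]
    congr 2
    unfold NN
    rw [padicValNat.mul h20 hN0, padicValNat.prime_pow,
      padicValNat.eq_zero_of_not_dvd (two_not_dvd hm)]
    push_cast
    ring
  have nq : ∀ q ∈ Qs m, padicNorm q (NN m : ℚ) = (q : ℚ) ^ (-(1 : ℤ)) := by
    intro q hq
    have Fq := Fact.mk hq.1.1
    have h0 : (NN m : ℚ) ≠ 0 := by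
      have : NN m ≠ 0 := mul_ne_zero h20 hN0
      exact_mod_cast this
    rw [padicNorm.eq_zpow_of_nonzero h0, padicValRat.of_nat]
    congr 2
    unfold NN
    rw [padicValNat.mul h20 hN0, padicValNat.pow, padicValNat_primes (inert_ne_two hq.1),
      mul_zero, zero_add]
    have h1 : q ∣ Nm m := (dvd_Nm hm hq.1.1).2 hq
    have h2 : 1 ≤ padicValNat q (Nm m) := one_le_padicValNat_of_dvd hN0 h1
    have h3 : ¬ 2 ≤ padicValNat q (Nm m) := by
      intro h
      rw [← padicValNat_dvd_iff_le hN0, pow_two] at h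
      have := Nm_squarefree hm q h
      exact hq.1.1.one_lt.ne' (Nat.isUnit_iff.1 this)
    have h4 : padicValNat q (Nm m) = 1 := by omega
    rw [h4]
    rfl
  constructor
  · rintro ⟨h1, h2⟩ q hq hd
    unfold NN at hd
    rcases hq.dvd_mul.1 hd with h | h
    · have : q = 2 := (Nat.prime_dvd_prime_iff_eq hq Nat.prime_two).1 (hq.dvd_of_dvd_pow h)
      subst this
      rw [n2]
      exact (vge_iff_norm Nat.prime_two _ _).1 h2
    · have h3 := (dvd_Nm hm hq).1 h
      rw [nq q h3]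
      exact (vge_iff_norm hq _ _).1 (h1 q h3)
  · intro h
    refine ⟨fun q hq => ?_, ?_⟩
    · rw [vge_iff_norm hq.1.1, ← nq q hq]
      exact h q hq.1.1 (dvd_mul_of_dvd_right ((dvd_Nm hm hq.1.1).2 hq) _)
    · rw [vge_iff_norm Nat.prime_two, ← n2]
      exact h 2 Nat.prime_two (dvd_mul_of_dvd_left (dvd_pow_self 2 (by omega)) _)

/-- the square of the modulus exceeds all good divisors -/
theorem NN_large {m : ℤ} (hm : m ≠ 0) {d : ℤ} (hd : d ∣ m)
    (hgood : ∀ p : ℕ, p.Prime → (p : ℤ) ∣ d → p % 16 ≠ 1 ∧ p % 16 ≠ 15) :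
    |d| ≤ (NN m : ℤ) ^ 2 := by
  have F2 := Fact.mk Nat.prime_two
  have hd0 : d ≠ 0 := by rintro rfl; exact hm (zero_dvd_iff.1 hd)
  obtain ⟨j, o, ho, hdo⟩ := Nat.exists_eq_two_pow_mul_odd (Int.natAbs_ne_zero.2 hd0)
  have ho0 : o ≠ 0 := by rintro rfl; simp at ho
  have hod : (o : ℤ) ∣ d := Int.natCast_dvd.2 ⟨2 ^ j, by rw [hdo, mul_comm]⟩
  have h1 : |(o : ℤ)| ≤ (Nm m : ℤ) ^ 2 := by
    apply Nm_large hm (hod.trans hd)
    intro p hp hpo
    refine ⟨?_, hgood p hp (hpo.trans hod)⟩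
    rintro rfl
    have : 2 ∣ o := by exact_mod_cast hpo
    rw [Nat.odd_iff] at ho
    omega
  have h2 : j ≤ padicValInt 2 m := by
    unfold padicValInt
    rw [← padicValNat_dvd_iff_le (Int.natAbs_ne_zero.2 hm)]
    exact (Dvd.intro _ hdo.symm).trans (Int.natAbs_dvd_natAbs.2 hd)
  have h3 : |d| = 2 ^ j * |(o : ℤ)| := by
    rw [Int.abs_eq_natAbs, hdo, Int.abs_eq_natAbs, Int.natAbs_natCast]
    push_cast
    rfl
  have h4 : (2 : ℤ) ^ j ≤ (2 ^ (6 + 2 * padicValInt 2 m)) ^ 2 := by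
    rw [← pow_mul]
    exact pow_le_pow_right₀ (by norm_num) (by omega)
  rw [h3]
  unfold NN
  push_cast
  rw [mul_pow]
  exact mul_le_mul h4 h1 (abs_nonneg _) (by positivity)

end Pool.Agent.Helper89K9.AD
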