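import Pool.Agent.Helper89K9.AD.Core
import Pool.Agent.H528R2.TestIff
import Pool.Agent.TH255.HC.Two

/-!
# Approximate divisibility of the indices of two points
-/

set_option autoImplicit false

namespace Pool.Agent.Helper89K9.AD

open Pool.Agent.H528R2 Pool.Agent.H528R2.CoreB Pool.Agent.H528R2.Chain

/-- the test at one pair of points -/
def Ts (c d e : ℚ) : Prop := Test (c / d) (hst (c / d) (1 / c) 1 * nrm (1 / e))

theorem ts_iff {m n : ℤ} (hm : m ≠ 0) (hn : n ≠ 0) :
    Ts (zz (8 * m)) (yy (8 * m)) (zz (8 * n)) ↔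
      ∀ q, Inert q → Vis q m → Odd (dd q (8 * m)) → Vis q n := by
  have hc : zz (8 * m) ≠ 0 := zz_ne (eight_ne hm)
  have hd : yy (8 * m) ≠ 0 := yy_ne (eight_ne hm)
  have he : zz (8 * n) ≠ 0 := zz_ne (eight_ne hn)
  have hN : zz (8 * m) / yy (8 * m) ≠ 0 := div_ne_zero hc hd
  have hw : 1 / zz (8 * m) ≠ 0 := one_div_ne_zero hc
  have he' : 1 / zz (8 * n) ≠ 0 := one_div_ne_zero he
  unfold Ts
  rw [test_iff hN]
  apply forall_congr'
  intro q
  apply forall_congr'
  intro hq
  have hh := val_hst hq hN hw one_ne_zero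
  have vw : padicValRat q (1 / zz (8 * m)) = - padicValRat q (zz (8 * m)) := by
    rw [one_div, val_inv hq.1]
  have vN : padicValRat q (zz (8 * m) / yy (8 * m)) =
      padicValRat q (zz (8 * m)) - padicValRat q (yy (8 * m)) := val_div hq.1 hc hd
  have hnr : nrm (1 / zz (8 * n)) ≠ 0 := fun h => he' (nrm_eq_zero.1 h)
  have vF : padicValRat q (hst (zz (8 * m) / yy (8 * m)) (1 / zz (8 * m)) 1 *
      nrm (1 / zz (8 * n))) = padicValRat q (hst (zz (8 * m) / yy (8 * m)) (1 / zz (8 * m)) 1) +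
      padicValRat q (nrm (1 / zz (8 * n))) := val_mul hq.1 hh.1 hnr
  have hF : hst (zz (8 * m) / yy (8 * m)) (1 / zz (8 * m)) 1 * nrm (1 / zz (8 * n)) ≠ 0 :=
    mul_ne_zero hh.1 hnr
  have v1 : padicValRat q (1 : ℚ) = 0 := padicValRat.one
  have hnv := (vge_nrm hq (1 / zz (8 * n))).le hnr
  have hvis : 1 ≤ padicValRat q (nrm (1 / zz (8 * n))) ↔ Vis q n := by
    rw [← inv_zz_iff hq.1 hn, ← vge_one_nrm hq]
    unfold Vge
    constructor
    · intro h; exact Or.inr h
    · intro h; exact h.resolve_left hnr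
  by_cases hv : Vis q m
  · have h1 := val_zz_vis hq.1 hm hv
    have e1 : padicValRat q (zz (8 * m) / yy (8 * m)) = dd q (8 * m) := by rw [vN]; omega
    have e2 : padicValRat q (hst (zz (8 * m) / yy (8 * m)) (1 / zz (8 * m)) 1) = 0 := by
      rw [hh.2, e1, vw, v1, abs_of_nonneg (by positivity)]
      omega
    have e3 : Vge q 1 (hst (zz (8 * m) / yy (8 * m)) (1 / zz (8 * m)) 1 *
        nrm (1 / zz (8 * n))) ↔ Vis q n := by
      rw [← hvis]
      unfold Vge
      rw [vF, e2, zero_add]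
      constructor
      · intro h; exact h.resolve_left hF
      · intro h; exact Or.inr h
    rw [e3, e1]
    have e4 : Odd ((dd q (8 * m) : ℕ) : ℤ) ↔ Odd (dd q (8 * m)) := Int.odd_coe_nat _
    rw [e4]
    constructor
    · intro h _ h'; exact h h'
    · intro h h'; exact h hv h'
  · constructor
    · intro _ h; exact absurd h hv
    · intro _ hodd
      right
      have h3 := val_zz_not_vis hq.1 hm hv
      rw [vF, hh.2, vw, v1]
      have h0 : padicValRat q (zz (8 * m) / yy (8 * m)) ≠ 0 := by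
        intro h0
        rw [h0] at hodd
        simp at hodd
      have h4 : 1 ≤ |padicValRat q (zz (8 * m) / yy (8 * m))| := Int.one_le_abs h0
      omega

/-- approximate divisibility -/
def Dv (m n : ℤ) : Prop :=
  (∀ a ∈ ({1, 3, 5} : Finset ℕ),
    Ts (zz (8 * (a * m))) (yy (8 * (a * m))) (zz (8 * (a * n)))) ∧
  Vge 2 0 (zz (8 * m) / zz (8 * n))

theorem pos_of_mem {a : ℕ} (ha : a ∈ ({1, 3, 5} : Finset ℕ)) : a ≠ 0 := by
  simp only [Finset.mem_insert, Finset.mem_singleton] at ha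
  omega

/-- the `2`-adic valuation -/
theorem val_two {n : ℤ} (hn : n ≠ 0) :
    padicValRat 2 (zz (8 * n)) = padicValRat 2 (zz 8) - 2 * padicValInt 2 n := by
  have hp : padicValRat 2 (ptX ((8 : ℤ) • P0)) < 0 := RhoAux.pole8 (by norm_num) (by norm_num)
  have h := (pole_smul Nat.prime_two hp hn).2
  have e : zz (8 * n) = ptX (n • (8 : ℤ) • P0) := by
    unfold zz
    rw [mul_comm, mul_zsmul]
  rw [e, h]
  rfl

theorem Dv.of_dvd {m n : ℤ} (hn : n ≠ 0) (h : m ∣ n) : Dv m n := by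
  have hm : m ≠ 0 := by rintro rfl; exact hn (zero_dvd_iff.1 h)
  refine ⟨fun a ha => ?_, ?_⟩
  · have ha0 : (a : ℤ) ≠ 0 := by exact_mod_cast pos_of_mem ha
    rw [ts_iff (mul_ne_zero ha0 hm) (mul_ne_zero ha0 hn)]
    intro q hq hv _
    exact hv.of_dvd (mul_dvd_mul_left _ h)
  · right
    rw [val_div Nat.prime_two (zz_ne (eight_ne hm)) (zz_ne (eight_ne hn)), val_two hm, val_two hn]
    have : padicValInt 2 m ≤ padicValInt 2 n := by
      unfold padicValInt
      have : Fact (Nat.Prime 2) := ⟨Nat.prime_two⟩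
      rw [← padicValNat_dvd_iff_le (by simpa using hn)]
      exact pow_padicValNat_dvd.trans (Int.natAbs_dvd_natAbs.2 h)
    omega

theorem Dv.val_le {m n : ℤ} (hm : m ≠ 0) (hn : n ≠ 0) (h : Dv m n) {p : ℕ} (hp : p.Prime)
    (h1 : p % 16 ≠ 1) (h15 : p % 16 ≠ 15) : padicValInt p m ≤ padicValInt p n := by
  have Fp := Fact.mk hp
  by_cases hp2 : p = 2
  · subst hp2
    have h2 := h.2.le (div_ne_zero (zz_ne (eight_ne hm)) (zz_ne (eight_ne hn)))
    rw [val_div Nat.prime_two (zz_ne (eight_ne hm)) (zz_ne (eight_ne hn)), val_two hm,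
      val_two hn] at h2
    omega
  by_contra hlt
  push Not at hlt
  have hM0 : m.natAbs ≠ 0 := Int.natAbs_ne_zero.2 hm
  have hn0 : n.natAbs ≠ 0 := Int.natAbs_ne_zero.2 hn
  obtain ⟨k, o, ho, hMo⟩ := Nat.exists_eq_two_pow_mul_odd hM0
  have ho0 : o ≠ 0 := by rintro rfl; simp at ho
  have hpM : p ∣ m.natAbs := by
    apply dvd_of_one_le_padicValNat
    unfold padicValInt at hlt
    omega
  have hpo : p ∣ o := by
    rw [hMo] at hpM
    rcases hp.dvd_mul.1 hpM with h | h
    · exact absurd ((Nat.prime_dvd_prime_iff_eq hp Nat.prime_two).1 (hp.dvd_of_dvd_pow h)) hp2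
    · exact h
  obtain ⟨m₁, hm₁⟩ := hpo
  have hm₁0 : m₁ ≠ 0 := by rintro rfl; simp at hm₁; exact ho0 hm₁
  have hm₁odd : Odd m₁ := Odd.of_dvd_nat ho ⟨p, by rw [hm₁, mul_comm]⟩
  obtain ⟨a, ha, s, hs, h2, h3, h4⟩ := core_new hm₁odd hp hp2 h1 h15
  have ha0 := pos_of_mem ha
  have ha0' : (a : ℤ) ≠ 0 := by exact_mod_cast ha0
  have Fs := Fact.mk hs.1
  have hs2 : s ≠ 2 := inert_ne_two hs
  have ham : (a : ℤ) * m ≠ 0 := mul_ne_zero ha0' hm
  have han : (a : ℤ) * n ≠ 0 := mul_ne_zero ha0' hn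
  have eM : m.natAbs = 2 ^ k * (m₁ * p) := by rw [hMo, hm₁]; ring
  have eaM : ((a : ℤ) * m).natAbs = 2 ^ k * (a * m₁ * p) := by
    rw [Int.natAbs_mul, Int.natAbs_natCast, eM]; ring
  -- visible
  have hvis : Vis s (a * m) := by
    unfold Vis
    apply dvd_mul_of_dvd_right
    rw [Int.natCast_dvd, eaM]
    exact h2.trans (dvd_mul_left _ _)
  have hX0 : a * m₁ * p ≠ 0 := mul_ne_zero (mul_ne_zero ha0 hm₁0) hp.ne_zero
  have hv2 : padicValInt s (a * m) = padicValNat s (a * m₁ * p) := by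
    unfold padicValInt
    rw [eaM, padicValNat.mul (by positivity) hX0, padicValNat.pow,
      padicValNat_primes hs2, mul_zero, zero_add]
  have hodd : Odd (dd s (8 * (a * m))) := by
    have e1 := dd_eight hs ham hvis
    have e2 := dd_of hs.1 hX0 h2
    rw [hv2] at e1
    have e3 : dd s (8 * (a * m)) = dd s ((a * m₁ * p : ℕ) : ℤ) := by omega
    rw [e3]
    exact h4
  have hvn : Vis s (a * n) := (ts_iff ham han).1 (h.1 a ha) s hs hvis hodd
  -- valuations at `p`
  have hR0 : rk s ≠ 0 := by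
    intro h0
    rw [h0] at h2
    exact hX0 (zero_dvd_iff.1 h2)
  have hx0 : a * m₁ ≠ 0 := mul_ne_zero ha0 hm₁0
  have h5 : padicValNat p (a * m₁) < padicValNat p (rk s) := by
    by_contra hc
    push Not at hc
    exact h3 (dvd_of_val hp hx0 hR0 (by rw [mul_comm p]; exact h2) hc)
  have h6 : padicValNat p (rk s) ≤ padicValNat p (8 * (a * n.natAbs)) := by
    have h7 : rk s ∣ 8 * (a * n.natAbs) := by
      unfold Vis at hvn
      rw [Int.natCast_dvd, Int.natAbs_mul, Int.natAbs_mul, Int.natAbs_natCast] at hvn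
      exact hvn
    rw [← padicValNat_dvd_iff_le (mul_ne_zero (by norm_num) (mul_ne_zero ha0 hn0))]
    exact pow_padicValNat_dvd.trans h7
  have h8 : padicValNat p 8 = 0 := by
    have : (8 : ℕ) = 2 ^ 3 := by norm_num
    rw [this, padicValNat.pow, padicValNat_primes hp2, mul_zero]
  rw [padicValNat.mul (by norm_num) (mul_ne_zero ha0 hn0), padicValNat.mul ha0 hn0, h8] at h6
  rw [padicValNat.mul ha0 hm₁0] at h5
  have h9 : padicValInt p m = padicValNat p m₁ + 1 := by
    unfold padicValInt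
    rw [eM, padicValNat.mul (by positivity) (mul_ne_zero hm₁0 hp.ne_zero), padicValNat.pow,
      padicValNat_primes hp2, padicValNat.mul hm₁0 hp.ne_zero, padicValNat_self, mul_zero,
      zero_add]
  have h10 : padicValInt p n = padicValNat p n.natAbs := rfl
  omega

/-- the good part of `m` divides `n` -/
theorem Dv.dvd {m n : ℤ} (hm : m ≠ 0) (hn : n ≠ 0) (h : Dv m n) {d : ℤ} (hd : d ∣ m)
    (hgood : ∀ p : ℕ, p.Prime → (p : ℤ) ∣ d → p % 16 ≠ 1 ∧ p % 16 ≠ 15) : d ∣ n := by
  have hd0 : d ≠ 0 := by rintro rfl; exact hm (zero_dvd_iff.1 hd)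
  rw [← Int.natAbs_dvd_natAbs, ← Nat.factorization_le_iff_dvd (Int.natAbs_ne_zero.2 hd0)
    (Int.natAbs_ne_zero.2 hn)]
  intro p
  by_cases hp : p.Prime
  · by_cases hpd : p ∣ d.natAbs
    · have hg := hgood p hp (Int.natCast_dvd.2 hpd)
      have h1 := Dv.val_le hm hn h hp hg.1 hg.2
      have h2 : padicValInt p d ≤ padicValInt p m := by
        have := Fact.mk hp
        unfold padicValInt
        rw [← padicValNat_dvd_iff_le (Int.natAbs_ne_zero.2 hm)]
        exact pow_padicValNat_dvd.trans (Int.natAbs_dvd_natAbs.2 hd)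
      rw [Nat.factorization_def _ hp, Nat.factorization_def _ hp]
      exact h2.trans h1
    · rw [Nat.factorization_eq_zero_of_not_dvd hpd]
      exact Nat.zero_le _
  · rw [Nat.factorization_eq_zero_of_not_prime _ hp]
    exact Nat.zero_le _

end Pool.Agent.Helper89K9.AD
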